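import Pool.Agent.P.MP_da739a_co.Grid

/-! A plane drawing by arcs gives a minor model in the square grid. -/

open Set Topology

namespace Pool.Agent.P.MP_da739a_co

/-- grid point of a point of the plane -/
noncomputable def gp (η : ℝ) (x : ℝ × ℝ) : ℤ × ℤ := (⌊x.1 / η⌋, ⌊x.2 / η⌋)

/-- grid points near a plane set -/
def nb (η : ℝ) (X : Set (ℝ × ℝ)) : Set (ℤ × ℤ) :=
  {a | ∃ x ∈ X, |a.1 - (gp η x).1| ≤ 1 ∧ |a.2 - (gp η x).2| ≤ 1}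

lemma gp_mem {η : ℝ} {X : Set (ℝ × ℝ)} {x : ℝ × ℝ} (hx : x ∈ X) : gp η x ∈ nb η X :=
  ⟨x, hx, by simp, by simp⟩

lemma rt_block {η : ℝ} {X : Set (ℝ × ℝ)} {x : ℝ × ℝ} (hx : x ∈ X) {a : ℤ × ℤ}
    (h1 : |a.1 - (gp η x).1| ≤ 1) (h2 : |a.2 - (gp η x).2| ≤ 1) : RT (nb η X) (gp η x) a := by
  have hm : (a.1, (gp η x).2) ∈ nb η X := ⟨x, hx, h1, by simp⟩
  exact (rt_near (gp_mem hx) hm (Or.inl ⟨h1, rfl⟩)).trans'
    (rt_near hm ⟨x, hx, h1, h2⟩ (Or.inr ⟨rfl, h2⟩))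

lemma floor_close {η a b : ℝ} (hη : 0 < η) (h : |a - b| < η) : |⌊a / η⌋ - ⌊b / η⌋| ≤ 1 := by
  have h1 : |a / η - b / η| < 1 := by
    rw [← sub_div, abs_div, abs_of_pos hη, div_lt_one hη]
    exact h
  rw [abs_lt] at h1
  have a1 := Int.floor_le (a / η)
  have a2 := Int.lt_floor_add_one (a / η)
  have b1 := Int.floor_le (b / η)
  have b2 := Int.lt_floor_add_one (b / η)
  have c1 : ((⌊a / η⌋ - ⌊b / η⌋ : ℤ) : ℝ) < (2 : ℤ) := by push_cast; linarith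
  have c2 : (((-2 : ℤ)) : ℝ) < ((⌊a / η⌋ - ⌊b / η⌋ : ℤ) : ℝ) := by push_cast; linarith
  have d1 := Int.cast_lt.1 c1
  have d2 := Int.cast_lt.1 c2
  rw [abs_le]
  omega

lemma close_of_floor {η a b : ℝ} (hη : 0 < η) (h : |⌊a / η⌋ - ⌊b / η⌋| ≤ 2) : |a - b| < 3 * η := by
  rw [abs_le] at h
  have a1 := Int.floor_le (a / η)
  have a2 := Int.lt_floor_add_one (a / η)
  have b1 := Int.floor_le (b / η)
  have b2 := Int.lt_floor_add_one (b / η)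
  have c1 : ((⌊a / η⌋ - ⌊b / η⌋ : ℤ) : ℝ) ≤ (2 : ℤ) := Int.cast_le.2 h.2
  have c2 : (((-2 : ℤ)) : ℝ) ≤ ((⌊a / η⌋ - ⌊b / η⌋ : ℤ) : ℝ) := Int.cast_le.2 h.1
  push_cast at c1 c2
  have h1 : |a / η - b / η| < 3 := by
    rw [abs_lt]
    constructor <;> linarith
  rwa [← sub_div, abs_div, abs_of_pos hη, div_lt_iff₀ hη] at h1

lemma rt_of_preconnected {η : ℝ} (hη : 0 < η) {X : Set (ℝ × ℝ)} (hX : IsPreconnected X)
    {x : ℝ × ℝ} (hx : x ∈ X) {a : ℤ × ℤ} (ha : a ∈ nb η X) : RT (nb η X) (gp η x) a := by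
  obtain ⟨y, hy, h1, h2⟩ := ha
  refine RT.trans' ?_ (rt_block hy h1 h2)
  refine hX.induction₂' (fun u v => RT (nb η X) (gp η u) (gp η v)) (fun u hu => ?_)
    (fun _ _ _ _ _ _ h h' => h.trans' h') hx hy
  filter_upwards [mem_nhdsWithin_of_mem_nhds (Metric.ball_mem_nhds u hη)] with v hv
  rw [Metric.mem_ball, Prod.dist_eq, max_lt_iff, Real.dist_eq, Real.dist_eq] at hv
  have := rt_block (η := η) hu (a := gp η v) (floor_close hη hv.1) (floor_close hη hv.2)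
  exact ⟨this, this.symm⟩

lemma exists_mesh {J : Type} [Finite J] (X : J → Set (ℝ × ℝ)) (hX : ∀ j, IsCompact (X j)) :
    ∃ η : ℝ, 0 < η ∧ ∀ i j, Disjoint (X i) (X j) → ∀ a, a ∈ nb η (X i) → a ∉ nb η (X j) := by
  have h1 : ∀ ij : J × J, ∀ᶠ η in 𝓝[>] (0 : ℝ), Disjoint (X ij.1) (X ij.2) →
      ∀ x ∈ X ij.1, ∀ y ∈ X ij.2, 3 * η ≤ dist x y := by
    rintro ⟨i, j⟩
    by_cases hd : Disjoint (X i) (X j)
    · obtain ⟨r, hr, h⟩ := Metric.exists_pos_forall_lt_edist (hX i) (hX j).isClosed hd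
      have hr' : (0 : ℝ) < r / 3 := by positivity
      filter_upwards [mem_nhdsWithin_of_mem_nhds (Iio_mem_nhds hr')] with η hη _ x hx y hy
      have := h x hx y hy
      rw [edist_nndist, ENNReal.coe_lt_coe, ← NNReal.coe_lt_coe, coe_nndist] at this
      rw [mem_Iio] at hη
      linarith
    · exact Filter.Eventually.of_forall fun _ h => absurd h hd
  obtain ⟨η, hη, hη0⟩ := ((Filter.eventually_all.2 h1).and self_mem_nhdsWithin).exists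
  refine ⟨η, hη0, fun i j hd a ⟨x, hx, a1, a2⟩ ⟨y, hy, b1, b2⟩ => ?_⟩
  have := hη (i, j) hd x hx y hy
  rw [abs_le] at a1 a2 b1 b2
  have k1 : |x.1 - y.1| < 3 * η := close_of_floor hη0 (by
    simp only [gp] at a1 b1; rw [abs_le]; omega)
  have k2 : |x.2 - y.2| < 3 * η := close_of_floor hη0 (by
    simp only [gp] at a2 b2; rw [abs_le]; omega)
  rw [Prod.dist_eq, Real.dist_eq, Real.dist_eq] at this
  exact absurd (max_lt k1 k2) (not_lt.2 this)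

theorem grid_of_drawing {V E : Type} [Finite V] [Finite E] (s t : E → V) (hst : ∀ e, s e ≠ t e)
    (p : V → ℝ × ℝ) (c : E → ℝ → ℝ × ℝ) (hp : Function.Injective p)
    (hc : ∀ e, ContinuousOn (c e) (Icc 0 1)) (hi : ∀ e, InjOn (c e) (Icc 0 1))
    (h0 : ∀ e, c e 0 = p (s e)) (h1 : ∀ e, c e 1 = p (t e))
    (hv : ∀ e, ∀ τ ∈ Ioo (0 : ℝ) 1, ∀ w, c e τ ≠ p w)
    (hx : ∀ e f, e ≠ f → ∀ τ ∈ Ioo (0 : ℝ) 1, ∀ τ' ∈ Ioo (0 : ℝ) 1, c e τ ≠ c f τ') :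
    ∃ (U : V → Set (ℤ × ℤ)) (r : V → ℤ × ℤ), (∀ u v a, a ∈ U u → a ∈ U v → u = v) ∧
      (∀ v, r v ∈ U v) ∧
      ∀ e, ∃ x y g, RT (U (s e)) (r (s e)) x ∧ RT (U (t e)) (r (t e)) y ∧ Joins g x y := by
  let K : V → Set (ℝ × ℝ) := fun v => {p v} ∪ (⋃ e ∈ {e | s e = v}, c e '' Icc 0 (1 / 3)) ∪
    ⋃ e ∈ {e | t e = v}, c e '' Icc (2 / 3) 1
  let M : E → Set (ℝ × ℝ) := fun e => c e '' Icc (1 / 3) (2 / 3)
  have hKm : ∀ v z, z ∈ K v ↔ z = p v ∨ (∃ e τ, s e = v ∧ τ ∈ Icc (0 : ℝ) (1 / 3) ∧ c e τ = z) ∨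
      ∃ e τ, t e = v ∧ τ ∈ Icc (2 / 3 : ℝ) 1 ∧ c e τ = z := by
    intro v z
    simp only [K, mem_union, mem_singleton_iff, mem_iUnion, mem_setOf_eq, mem_image, exists_prop,
      or_assoc, exists_and_left]
  have s1 : Icc (0 : ℝ) (1 / 3) ⊆ Icc 0 1 := Icc_subset_Icc le_rfl (by norm_num)
  have s2 : Icc (1 / 3 : ℝ) (2 / 3) ⊆ Icc 0 1 := Icc_subset_Icc (by norm_num) (by norm_num)
  have s3 : Icc (2 / 3 : ℝ) 1 ⊆ Icc 0 1 := Icc_subset_Icc (by norm_num) le_rfl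
  have hKc : ∀ v, IsCompact (K v) := fun v =>
    (isCompact_singleton.union ((toFinite _).isCompact_biUnion fun e _ =>
      isCompact_Icc.image_of_continuousOn ((hc e).mono s1))).union
      ((toFinite _).isCompact_biUnion fun e _ =>
        isCompact_Icc.image_of_continuousOn ((hc e).mono s3))
  have hMc : ∀ e, IsCompact (M e) := fun e =>
    isCompact_Icc.image_of_continuousOn ((hc e).mono s2)
  have hMp : ∀ e, IsPreconnected (M e) := fun e => isPreconnected_Icc.image _ ((hc e).mono s2)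
  have hpK : ∀ v, p v ∈ K v := fun v => (hKm v _).2 (Or.inl rfl)
  have hKp : ∀ v, IsPreconnected (K v) := by
    intro v
    refine isPreconnected_of_forall (p v) fun z hz => ?_
    rcases (hKm v z).1 hz with rfl | ⟨e, τ, rfl, hτ, rfl⟩ | ⟨e, τ, rfl, hτ, rfl⟩
    · exact ⟨{p v}, singleton_subset_iff.2 (hpK v), rfl, rfl, isPreconnected_singleton⟩
    · refine ⟨c e '' Icc 0 (1 / 3), ?_, ⟨0, by norm_num, h0 e⟩, ⟨τ, hτ, rfl⟩,
        isPreconnected_Icc.image _ ((hc e).mono s1)⟩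
      rintro _ ⟨τ', hτ', rfl⟩
      exact (hKm _ _).2 (Or.inr (Or.inl ⟨e, τ', rfl, hτ', rfl⟩))
    · refine ⟨c e '' Icc (2 / 3) 1, ?_, ⟨1, by norm_num, h1 e⟩, ⟨τ, hτ, rfl⟩,
        isPreconnected_Icc.image _ ((hc e).mono s3)⟩
      rintro _ ⟨τ', hτ', rfl⟩
      exact (hKm _ _).2 (Or.inr (Or.inr ⟨e, τ', rfl, hτ', rfl⟩))
  have hcc : ∀ e f, ∀ τ ∈ Ioo (0 : ℝ) 1, ∀ τ' ∈ Icc (0 : ℝ) 1, c f τ' = c e τ → f = e ∧ τ' = τ := by
    intro e f τ hτ τ' hτ' h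
    have hne0 : τ' ≠ 0 := fun h' => hv e τ hτ (s f) (by rw [← h, h', h0])
    have hne1 : τ' ≠ 1 := fun h' => hv e τ hτ (t f) (by rw [← h, h', h1])
    have hfe : f = e := by
      by_contra hfe
      exact hx f e hfe τ' ⟨lt_of_le_of_ne hτ'.1 hne0.symm, lt_of_le_of_ne hτ'.2 hne1⟩ τ hτ h
    subst hfe
    exact ⟨rfl, hi f hτ' (Ioo_subset_Icc_self hτ) h⟩
  have K1 : ∀ u w, p u ∈ K w → u = w := by
    intro u w h
    rcases (hKm w _).1 h with h | ⟨e, τ, rfl, hτ, h⟩ | ⟨e, τ, rfl, hτ, h⟩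
    · exact hp h
    · rcases hτ.1.eq_or_lt with rfl | hlt
      · exact hp (by rw [← h, h0])
      · exact absurd h (hv e τ ⟨hlt, by linarith [hτ.2]⟩ u)
    · rcases hτ.2.eq_or_lt with rfl | hlt
      · exact hp (by rw [← h, h1])
      · exact absurd h (hv e τ ⟨by linarith [hτ.1], hlt⟩ u)
  have K2 : ∀ e w, ∀ τ ∈ Ioo (0 : ℝ) 1, c e τ ∈ K w →
      (τ ≤ 1 / 3 ∧ s e = w) ∨ (2 / 3 ≤ τ ∧ t e = w) := by
    intro e w τ hτ h
    rcases (hKm w _).1 h with h | ⟨f, τ', rfl, hτ', h⟩ | ⟨f, τ', rfl, hτ', h⟩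
    · exact absurd h (hv e τ hτ w)
    · obtain ⟨rfl, rfl⟩ := hcc e f τ hτ τ' (s1 hτ') h
      exact Or.inl ⟨hτ'.2, rfl⟩
    · obtain ⟨rfl, rfl⟩ := hcc e f τ hτ τ' (s3 hτ') h
      exact Or.inr ⟨hτ'.1, rfl⟩
  have dKK : ∀ u w, u ≠ w → Disjoint (K u) (K w) := by
    intro u w huw
    rw [Set.disjoint_left]
    intro z hz hz'
    apply huw
    rcases (hKm u z).1 hz with rfl | ⟨e, τ, rfl, hτ, rfl⟩ | ⟨e, τ, rfl, hτ, rfl⟩
    · exact K1 _ _ hz'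
    · rcases hτ.1.eq_or_lt with rfl | hlt
      · exact K1 _ _ (h0 e ▸ hz')
      · rcases K2 e w τ ⟨hlt, by linarith [hτ.2]⟩ hz' with h | h
        · exact h.2
        · linarith [h.1, hτ.2]
    · rcases hτ.2.eq_or_lt with rfl | hlt
      · exact K1 _ _ (h1 e ▸ hz')
      · rcases K2 e w τ ⟨by linarith [hτ.1], hlt⟩ hz' with h | h
        · linarith [h.1, hτ.1]
        · exact h.2
  have dMK : ∀ e w, s e ≠ w → t e ≠ w → Disjoint (M e) (K w) := by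
    intro e w a b
    rw [Set.disjoint_left]
    rintro _ ⟨τ, hτ, rfl⟩ hz'
    rcases K2 e w τ ⟨by linarith [hτ.1], by linarith [hτ.2]⟩ hz' with h | h
    exacts [a h.2, b h.2]
  have dMM : ∀ e f, e ≠ f → Disjoint (M e) (M f) := by
    intro e f hef
    rw [Set.disjoint_left]
    rintro _ ⟨τ, hτ, rfl⟩ ⟨τ', hτ', h⟩
    exact hef (hcc e f τ ⟨by linarith [hτ.1], by linarith [hτ.2]⟩ τ' (s2 hτ') h).1.symm
  obtain ⟨η, hη, hsep⟩ := exists_mesh (J := V ⊕ E) (Sum.elim K M) (by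
    rintro (v | e)
    exacts [hKc v, hMc e])
  let U : V → Set (ℤ × ℤ) := fun v =>
    {a | a ∈ nb η (K v) ∨ ∃ e, s e = v ∧ a ∈ nb η (M e) \ nb η (K (t e))}
  have hMU : ∀ e w a, a ∈ nb η (M e) \ nb η (K (t e)) → a ∈ nb η (K w) → s e = w := by
    intro e w a ha hw
    by_contra hne
    by_cases h : t e = w
    · exact ha.2 (h ▸ hw)
    · exact hsep (Sum.inr e) (Sum.inl w) (dMK e w hne h) a ha.1 hw
  refine ⟨U, fun v => gp η (p v), fun u v a hu hv' => ?_, fun v => Or.inl (gp_mem (hpK v)),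
    fun e => ?_⟩
  · rcases hu with hu | ⟨e, rfl, hu⟩ <;> rcases hv' with hv' | ⟨f, rfl, hv'⟩
    · by_contra hne
      exact hsep (Sum.inl u) (Sum.inl v) (dKK u v hne) a hu hv'
    · exact (hMU f u a hv' hu).symm
    · exact hMU e v a hu hv'
    · by_contra hne
      exact hsep (Sum.inr e) (Sum.inr f) (dMM e f fun h => hne (by rw [h])) a hu.1 hv'.1
  · have a1 : c e (1 / 3) ∈ K (s e) :=
      (hKm _ _).2 (Or.inr (Or.inl ⟨e, 1 / 3, rfl, by norm_num, rfl⟩))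
    have a2 : c e (1 / 3) ∈ M e := ⟨1 / 3, by norm_num, rfl⟩
    have b1 : c e (2 / 3) ∈ K (t e) :=
      (hKm _ _).2 (Or.inr (Or.inr ⟨e, 2 / 3, rfl, by norm_num, rfl⟩))
    have b2 : c e (2 / 3) ∈ M e := ⟨2 / 3, by norm_num, rfl⟩
    obtain ⟨x, y, k1, -, k3, g, hg⟩ := first_entry (B := nb η (K (t e)))
      (rt_of_preconnected hη (hMp e) a2 (gp_mem b2))
      (hsep (Sum.inl (s e)) (Sum.inl (t e)) (dKK _ _ (hst e)) _ (gp_mem a1)) (gp_mem a2) (gp_mem b1)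
    refine ⟨x, y, g, RT.trans' ?_ (k1.mono fun a ha => Or.inr ⟨e, rfl, ha⟩), ?_, hg⟩
    · exact (rt_of_preconnected hη (hKp _) (hpK _) (gp_mem a1)).mono fun a ha => Or.inl ha
    · exact (rt_of_preconnected hη (hKp _) (hpK _) k3).mono fun a ha => Or.inl ha

end Pool.Agent.P.MP_da739a_co
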