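import Pool.Agent.P.MP_da739a_co.Cover
import Pool.Agent.P.MP_da739a_co.Hoffman

/-! Graphs whose odd cuts have at least `4k+3` edges have modulo `2k+1` orientations. -/

open Finset Module

namespace Pool.Agent.P.MP_da739a_co

variable {V E : Type} [Fintype V] [Fintype E] [DecidableEq V] [DecidableEq E]

/-- incidence vector of an edge -/
def chi (s t : E → V) (e : E) : V → ℝ :=
  fun v => (if s e = v then 1 else 0) - (if t e = v then 1 else 0)

/-- size of an edge cut -/
def cz (s t : E → V) (A : Finset V) : ℤ := ∑ e, if (s e ∈ A ↔ t e ∈ A) then 0 else 1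

/-- modulo `m` orientation -/
def HasOr (s t : E → V) (m : ℕ) : Prop :=
  ∃ x : E → ℤ, (∀ e, x e = 1 ∨ x e = -1) ∧ ∀ v, (m : ℤ) ∣ bdry s t x v

omit [Fintype V] [DecidableEq E] in
lemma bdry_cast (s t : E → V) (x : E → ℤ) (v : V) :
    ((bdry s t x v : ℤ) : ℝ) = ∑ e, (x e : ℝ) * chi s t e v := by
  unfold bdry chi
  push_cast
  refine Finset.sum_congr rfl fun e _ => ?_
  split_ifs <;> simp

omit [DecidableEq E] in
lemma round_flow (s t : E → V) (F0 : Finset E) [DecidablePred (· ∈ F0)] (g : E → ℝ)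
    (hg : ∀ e, 0 ≤ g e ∧ g e ≤ 1) (h : V → ℤ)
    (hh : ∀ v, (h v : ℝ) = ∑ e, (if e ∈ F0 then g e else 0) * chi s t e v) :
    ∃ z : E → ℤ, (∀ e, 0 ≤ z e ∧ z e ≤ if e ∈ F0 then 1 else 0) ∧ ∀ v, bdry s t z v = h v := by
  have hsum : ∀ X : Finset V, ((∑ v ∈ X, h v : ℤ) : ℝ) = ∑ e, (if e ∈ F0 then g e else 0) *
      ((if s e ∈ X then 1 else 0) - (if t e ∈ X then 1 else 0)) := by
    intro X
    push_cast
    simp only [hh]
    rw [Finset.sum_comm]
    refine Finset.sum_congr rfl fun e _ => ?_
    rw [← Finset.mul_sum]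
    unfold chi
    rw [Finset.sum_sub_distrib, Finset.sum_ite_eq, Finset.sum_ite_eq]
  refine hoffman' s t h ?_ (fun _ => 0) (fun e => if e ∈ F0 then 1 else 0)
    (fun e => by split_ifs <;> norm_num) fun X => ?_
  · have := hsum univ
    simp only [mem_univ, if_true, sub_self, mul_zero, Finset.sum_const_zero] at this
    exact_mod_cast this
  · have h1 : ((∑ v ∈ X, h v : ℤ) : ℝ) ≤ ((capOut s t (fun _ => 0)
        (fun e => if e ∈ F0 then 1 else 0) X : ℤ) : ℝ) := by
      rw [hsum]
      unfold capOut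
      push_cast
      refine Finset.sum_le_sum fun e _ => ?_
      have := hg e
      by_cases a0 : e ∈ F0 <;> by_cases a1 : s e ∈ X <;> by_cases a2 : t e ∈ X <;>
        simp [a0, a1, a2, this.1, this.2]
    exact_mod_cast h1

lemma contract_step (k : ℕ) (s t : E → V) (F0 : Finset E)
    (hlt : (2 * k + 1) * finrank ℝ (Submodule.span ℝ (chi s t '' (F0 : Set E))) < F0.card)
    (hr : ∀ F ⊆ F0, finrank ℝ (Submodule.span ℝ (chi s t '' (F0 : Set E))) * F.card ≤
      F0.card * finrank ℝ (Submodule.span ℝ (chi s t '' (F : Set E))))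
    (π : V → V) (hπ : ∀ e ∈ F0, π (s e) = π (t e)) (hππ : ∀ v, π (π v) = π v)
    (hW : ∀ v, (Pi.single v 1 - Pi.single (π v) 1 : V → ℝ) ∈
      Submodule.span ℝ (chi s t '' (F0 : Set E)))
    (h : HasOr (π ∘ s) (π ∘ t) (2 * k + 1)) : HasOr s t (2 * k + 1) := by
  obtain ⟨x', hx', hd⟩ := h
  have hcl : ∀ (φ : E → ℤ) (r : V), ∑ v with π v = r, bdry s t φ v = bdry (π ∘ s) (π ∘ t) φ r := by
    intro φ r
    rw [sum_bdry]
    unfold bdry
    simp
  set b' := bdry s t (fun e => if e ∈ F0 then 0 else x' e) with hb'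
  set c := bdry s t (fun e => if e ∈ F0 then 1 else 0) with hc
  have hb'cl : ∀ r, ((2 * k + 1 : ℕ) : ℤ) ∣ ∑ v with π v = r, b' v := by
    intro r
    rw [hb', hcl]
    convert hd r using 1
    unfold bdry
    refine Finset.sum_congr rfl fun e _ => ?_
    by_cases he : e ∈ F0
    · simp [he, hπ e he]
    · simp [he]
  have hccl : ∀ r, ∑ v with π v = r, c v = 0 := by
    intro r
    rw [hc, hcl]
    unfold bdry
    refine Finset.sum_eq_zero fun e _ => ?_
    by_cases he : e ∈ F0
    · simp [he, hπ e he]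
    · simp [he]
  choose j hj using hb'cl
  let q : V → ℤ := fun v => -b' v + (2 * k + 1) * (b' v + c v) -
    if π v = v then 2 * k * ((2 * k + 1) * j v) else 0
  have hqcl : ∀ r, ∑ v with π v = r, q v = 0 := by
    intro r
    simp only [q]
    rw [Finset.sum_sub_distrib, Finset.sum_add_distrib, Finset.sum_neg_distrib, ← Finset.mul_sum,
      Finset.sum_add_distrib, hccl, hj]
    by_cases hr' : π r = r
    · rw [Finset.sum_eq_single r]
      · simp only [hr', if_true]; push_cast; ring
      · intro v hv hvr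
        have := (mem_filter.1 hv).2
        rw [if_neg]
        rw [this]
        exact fun h => hvr h.symm
      · intro h
        exact absurd (by simpa using hr') h
    · have hem : (univ.filter fun v => π v = r) = ∅ := by
        rw [Finset.filter_eq_empty_iff]
        intro v _ hv
        exact hr' (by rw [← hv, hππ])
      have h0 := hj r
      rw [hem] at h0 ⊢
      simp only [Finset.sum_empty] at h0 ⊢
      rw [← h0]
      ring
  have hp : (fun v => (q v : ℝ)) ∈ Submodule.span ℝ (chi s t '' (F0 : Set E)) := by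
    have : (fun v => (q v : ℝ)) =
        ∑ v, (q v : ℝ) • (Pi.single v 1 - Pi.single (π v) 1 : V → ℝ) := by
      ext r
      have h0 : ((∑ v with π v = r, q v : ℤ) : ℝ) = 0 := by rw [hqcl]; simp
      push_cast at h0
      rw [Finset.sum_filter] at h0
      simp only [Finset.sum_apply, Pi.smul_apply, Pi.sub_apply, Pi.single_apply, smul_eq_mul,
        mul_sub, Finset.sum_sub_distrib, mul_ite, mul_one, mul_zero, Finset.sum_ite_eq,
        mem_univ, if_true]
      simp only [eq_comm (a := r)]
      rw [h0, sub_zero]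
    rw [this]
    exact Submodule.sum_mem _ fun v _ => Submodule.smul_mem _ _ (hW v)
  obtain ⟨y, f, hf, heq⟩ := cover (chi s t) F0 (2 * k + 1) (by omega) hlt hr _ hp
  set Y := bdry s t (fun e => if e ∈ F0 then y e else 0) with hY
  let h : V → ℤ := fun v => k * b' v + (k + 1) * c v -
    (if π v = v then k * ((2 * k + 1) * j v) else 0) + (2 * k + 1) * Y v
  have hsumF : ∀ (φ : E → ℝ) (v : V), ∑ e ∈ F0, φ e * chi s t e v =
      ∑ e, (if e ∈ F0 then φ e else 0) * chi s t e v := by
    intro φ v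
    simp only [ite_mul, zero_mul]
    rw [Finset.sum_ite_mem, univ_inter]
  obtain ⟨z, hz, hzb⟩ := round_flow s t F0 (fun e => (f e + 1) / 2) (fun e => by
      have := abs_le.1 (hf e); constructor <;> linarith [this.1, this.2]) h (by
      intro v
      have h1 := congrFun heq v
      simp only [Pi.add_apply, Finset.sum_apply, Pi.smul_apply, smul_eq_mul] at h1
      have h2 : ((Y v : ℤ) : ℝ) = ∑ e ∈ F0, (y e : ℝ) * chi s t e v := by
        rw [hY, bdry_cast, hsumF]
        exact Finset.sum_congr rfl fun e _ => by split_ifs <;> simp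
      have h3 : ((c v : ℤ) : ℝ) = ∑ e ∈ F0, chi s t e v := by
        rw [hc, bdry_cast]
        have := hsumF (fun _ => 1) v
        simp only [one_mul] at this
        rw [this]
        exact Finset.sum_congr rfl fun e _ => by split_ifs <;> simp
      rw [← hsumF]
      have h4 : ∑ e ∈ F0, (f e + 1) / 2 * chi s t e v =
          (∑ e ∈ F0, f e * chi s t e v + ∑ e ∈ F0, chi s t e v) / 2 := by
        rw [← Finset.sum_add_distrib, Finset.sum_div]
        exact Finset.sum_congr rfl fun e _ => by ring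
      have h5 : ∑ e ∈ F0, 2 * ((2 * k + 1 : ℕ) : ℝ) * (y e : ℝ) * chi s t e v =
          2 * ((2 * k + 1 : ℕ) : ℝ) * Y v := by
        rw [h2, Finset.mul_sum]
        exact Finset.sum_congr rfl fun e _ => by ring
      rw [h4, ← h1, ← h3, h5]
      simp only [h, q]
      split_ifs <;> push_cast <;> ring)
  refine ⟨fun e => if e ∈ F0 then 2 * z e - 1 else x' e, fun e => ?_, fun v => ?_⟩
  · by_cases he : e ∈ F0
    · have := hz e
      simp only [he, if_true] at this ⊢
      omega
    · simpa [he] using hx' e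
  · have : bdry s t (fun e => if e ∈ F0 then 2 * z e - 1 else x' e) v =
        2 * bdry s t z v - c v + b' v := by
      rw [hc, hb']
      unfold bdry
      rw [Finset.mul_sum, ← Finset.sum_sub_distrib, ← Finset.sum_add_distrib]
      refine Finset.sum_congr rfl fun e _ => ?_
      have := hz e
      by_cases he : e ∈ F0
      · simp only [he, if_true]
        split_ifs <;> ring
      · simp only [he, if_false] at this ⊢
        have hz0 : z e = 0 := by omega
        split_ifs <;> simp [hz0]
    rw [this, hzb]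
    simp only [h]
    push_cast
    split_ifs
    · exact ⟨b' v + c v - 2 * k * j v + 2 * Y v, by ring⟩
    · exact ⟨b' v + c v + 2 * Y v, by ring⟩

omit [Fintype E] [Fintype V] [DecidableEq E] in
lemma exists_contraction (s t : E → V) (F0 : Finset E) :
    ∃ π : V → V, (∀ e ∈ F0, π (s e) = π (t e)) ∧ (∀ v, π (π v) = π v) ∧
      ∀ v, (Pi.single v 1 - Pi.single (π v) 1 : V → ℝ) ∈
        Submodule.span ℝ (chi s t '' (F0 : Set E)) := by
  let R : Setoid V := ⟨fun u v => (Pi.single u 1 - Pi.single v 1 : V → ℝ) ∈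
      Submodule.span ℝ (chi s t '' (F0 : Set E)), fun u => by simp, fun {u v} h => by
        have := Submodule.neg_mem _ h
        rwa [neg_sub] at this, fun {u v w} h1 h2 => by
        have := Submodule.add_mem _ h1 h2
        rwa [sub_add_sub_cancel] at this⟩
  refine ⟨fun v => (Quotient.mk R v).out, fun e he => ?_, fun v => by simp, fun v => ?_⟩
  · have : Quotient.mk R (s e) = Quotient.mk R (t e) := by
      apply Quotient.sound
      refine Submodule.subset_span ⟨e, he, ?_⟩
      ext v
      simp [chi, Pi.single_apply, eq_comm]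
    simp only [this]
  · exact R.symm (Quotient.mk_out (s := R) v)

omit [Fintype E] [DecidableEq E] in
lemma exists_densest (m : ℕ) (s t : E → V) (D : Finset E) (hD : ∀ e ∈ D, s e ≠ t e)
    (hlt : m * finrank ℝ (Submodule.span ℝ (chi s t '' (D : Set E))) < D.card) :
    ∃ F0 ⊆ D, F0.Nonempty ∧
      m * finrank ℝ (Submodule.span ℝ (chi s t '' (F0 : Set E))) < F0.card ∧
      ∀ F ⊆ F0, finrank ℝ (Submodule.span ℝ (chi s t '' (F0 : Set E))) * F.card ≤
        F0.card * finrank ℝ (Submodule.span ℝ (chi s t '' (F : Set E))) := by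
  set r : Finset E → ℕ := fun F => finrank ℝ (Submodule.span ℝ (chi s t '' (F : Set E))) with hr
  have hpos : ∀ F ⊆ D, F.Nonempty → (0 : ℝ) < r F := by
    rintro F hF ⟨e, he⟩
    have : 0 < r F := by
      rw [hr, finrank_pos_iff_exists_ne_zero]
      refine ⟨⟨chi s t e, Submodule.subset_span ⟨e, he, rfl⟩⟩, fun h => ?_⟩
      have h1 := congrFun (congrArg Subtype.val h) (s e)
      simp [chi, (hD e (hF he)).symm] at h1
    exact_mod_cast this
  have hDne : D.Nonempty := Finset.card_pos.1 (by omega)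
  obtain ⟨F0, hF0, hmax⟩ := Finset.exists_max_image (D.powerset.filter fun F => F.Nonempty)
    (fun F => (F.card : ℝ) / r F) ⟨D, by simp [hDne]⟩
  simp only [mem_filter, mem_powerset] at hF0 hmax
  refine ⟨F0, hF0.1, hF0.2, ?_, fun F hF => ?_⟩
  · have h1 := hmax D ⟨subset_rfl, hDne⟩
    have h2 : (m : ℝ) < (D.card : ℝ) / r D := by
      rw [lt_div_iff₀ (hpos D subset_rfl hDne)]
      exact_mod_cast hlt
    have h3 := (lt_div_iff₀ (hpos F0 hF0.1 hF0.2)).1 (h2.trans_le h1)
    exact_mod_cast h3
  · rcases F.eq_empty_or_nonempty with rfl | hne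
    · simp
    · have h1 := hmax F ⟨hF.trans hF0.1, hne⟩
      rw [div_le_div_iff₀ (hpos F (hF.trans hF0.1) hne) (hpos F0 hF0.1 hF0.2), mul_comm] at h1
      exact_mod_cast h1

omit [Fintype V] [DecidableEq V] in
lemma sum_two (F G : E → ℤ) (e f : E) (hef : e ≠ f) (h : ∀ g, g ≠ e → g ≠ f → F g = G g) :
    ∑ g, F g = ∑ g, G g + (F e + F f - (G e + G f)) := by
  have h1 : ∀ H : E → ℤ, ∑ g, H g = H e + H f + ∑ g ∈ (univ.erase e).erase f, H g := by
    intro H
    rw [add_assoc, Finset.add_sum_erase _ _ (mem_erase.2 ⟨hef.symm, mem_univ _⟩),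
      Finset.add_sum_erase _ _ (mem_univ _)]
  rw [h1 F, h1 G, Finset.sum_congr rfl (fun g hg => h g
    (Finset.ne_of_mem_erase (Finset.mem_of_mem_erase hg)) (Finset.ne_of_mem_erase hg))]
  ring

omit [Fintype V] [DecidableEq E] in
lemma cz_union (s t : E → V) (lam : ℤ) (hodd : Odd lam)
    (hc : ∀ A, Odd (cz s t A) → lam ≤ cz s t A) (X Y : Finset V) (hX : cz s t X = lam)
    (hY : cz s t Y = lam) (e : E) (he : (s e ∈ X ∧ s e ∈ Y ∧ t e ∉ X ∧ t e ∉ Y) ∨
      (t e ∈ X ∧ t e ∈ Y ∧ s e ∉ X ∧ s e ∉ Y)) : cz s t (X ∪ Y) = lam := by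
  classical
  have par1 : Even (cz s t (X \ Y) + cz s t (X ∩ Y) + cz s t X) := by
    unfold cz
    rw [← Finset.sum_add_distrib, ← Finset.sum_add_distrib]
    refine Finset.even_sum _ fun g _ => ?_
    by_cases a1 : s g ∈ X <;> by_cases a2 : t g ∈ X <;> by_cases a3 : s g ∈ Y <;>
      by_cases a4 : t g ∈ Y <;> simp [a1, a2, a3, a4]
  have par2 : Even (cz s t (Y \ X) + cz s t (X ∩ Y) + cz s t Y) := by
    unfold cz
    rw [← Finset.sum_add_distrib, ← Finset.sum_add_distrib]
    refine Finset.even_sum _ fun g _ => ?_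
    by_cases a1 : s g ∈ X <;> by_cases a2 : t g ∈ X <;> by_cases a3 : s g ∈ Y <;>
      by_cases a4 : t g ∈ Y <;> simp [a1, a2, a3, a4]
  have par3 : Even (cz s t (X ∪ Y) + cz s t (X ∩ Y) + cz s t X + cz s t Y) := by
    unfold cz
    rw [← Finset.sum_add_distrib, ← Finset.sum_add_distrib, ← Finset.sum_add_distrib]
    refine Finset.even_sum _ fun g _ => ?_
    by_cases a1 : s g ∈ X <;> by_cases a2 : t g ∈ X <;> by_cases a3 : s g ∈ Y <;>
      by_cases a4 : t g ∈ Y <;> simp [a1, a2, a3, a4] <;> decide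
  have sub : cz s t (X ∪ Y) + cz s t (X ∩ Y) ≤ cz s t X + cz s t Y := by
    unfold cz
    rw [← Finset.sum_add_distrib, ← Finset.sum_add_distrib]
    refine Finset.sum_le_sum fun g _ => ?_
    by_cases a1 : s g ∈ X <;> by_cases a2 : t g ∈ X <;> by_cases a3 : s g ∈ Y <;>
      by_cases a4 : t g ∈ Y <;> simp [a1, a2, a3, a4]
  have posi : cz s t (X \ Y) + cz s t (Y \ X) < cz s t X + cz s t Y := by
    unfold cz
    rw [← Finset.sum_add_distrib, ← Finset.sum_add_distrib]
    refine Finset.sum_lt_sum (fun g _ => ?_) ⟨e, mem_univ _, ?_⟩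
    · by_cases a1 : s g ∈ X <;> by_cases a2 : t g ∈ X <;> by_cases a3 : s g ∈ Y <;>
        by_cases a4 : t g ∈ Y <;> simp [a1, a2, a3, a4]
    · rcases he with ⟨a1, a2, a3, a4⟩ | ⟨a1, a2, a3, a4⟩ <;> simp [a1, a2, a3, a4]
  have h1 := hc (X ∪ Y)
  have h2 := hc (X ∩ Y)
  have h3 := hc (X \ Y)
  have h4 := hc (Y \ X)
  rw [Int.odd_iff] at h1 h2 h3 h4 hodd
  rw [Int.even_iff] at par1 par2 par3
  omega

lemma split_step (m : ℕ) (lam : ℤ) (hodd : Odd lam) (s t : E → V)
    (hc : ∀ A, Odd (cz s t A) → lam ≤ cz s t A) (v : V) (hev : Even (cz s t {v}))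
    (hpos : 0 < cz s t {v}) :
    ∃ s' t' : E → V, #{e | s' e ≠ t' e} < #{e | s e ≠ t e} ∧
      (∀ A, Odd (cz s' t' A) → lam ≤ cz s' t' A) ∧ (HasOr s' t' m → HasOr s t m) := by
  set I : Finset E := {e | ¬ (s e = v ↔ t e = v)} with hI
  have hIc : cz s t {v} = I.card := by
    unfold cz
    rw [hI, Finset.card_filter]
    push_cast
    exact Finset.sum_congr rfl fun e _ => by simp only [mem_singleton]; split_ifs <;> rfl
  have hI2 : 1 < I.card := by
    rw [hIc] at hev hpos
    obtain ⟨r, hr⟩ := hev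
    omega
  obtain ⟨e, he, f0, hf0, hef0⟩ := Finset.one_lt_card.1 hI2
  let o : E → V := fun g => if s g = v then t g else s g
  have ho : ∀ g ∈ I, o g ≠ v ∧ ((s g = v ∧ t g = o g) ∨ (t g = v ∧ s g = o g)) := by
    intro g hg
    have := (mem_filter.1 hg).2
    by_cases a : s g = v <;> simp_all [o]
  let s' : E → E → V := fun f => Function.update (Function.update s e (o e)) f v
  let t' : E → E → V := fun f => Function.update (Function.update t e (o f)) f v
  have hs' : ∀ f, e ≠ f → s' f e = o e ∧ t' f e = o f ∧ s' f f = v ∧ t' f f = v ∧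
      ∀ g, g ≠ e → g ≠ f → s' f g = s g ∧ t' f g = t g := by
    intro f hef
    refine ⟨by simp [s', hef], by simp [t', hef], by simp [s'], by simp [t'], fun g h1 h2 => ?_⟩
    simp [s', t', h1, h2]
  have hcz : ∀ f ∈ I, e ≠ f → ∀ A, cz (s' f) (t' f) A = cz s t A -
      if (o e ∈ A ↔ o f ∈ A) ∧ ¬ (o e ∈ A ↔ v ∈ A) then 2 else 0 := by
    intro f hf hef A
    obtain ⟨h1, h2, h3, h4, h5⟩ := hs' f hef
    unfold cz
    rw [sum_two _ (fun g => if (s g ∈ A ↔ t g ∈ A) then 0 else 1) e f hef
      (fun g a b => by rw [(h5 g a b).1, (h5 g a b).2]), h1, h2, h3, h4]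
    rcases (ho e he).2 with ⟨a1, a2⟩ | ⟨a1, a2⟩ <;> rcases (ho f hf).2 with ⟨b1, b2⟩ | ⟨b1, b2⟩ <;>
      rw [a1, a2, b1, b2] <;> by_cases c1 : o e ∈ A <;> by_cases c2 : o f ∈ A <;>
      by_cases c3 : v ∈ A <;> simp [c1, c2, c3] <;> ring
  have hex : ∃ f ∈ I, e ≠ f ∧ ∀ A, Odd (cz (s' f) (t' f) A) → lam ≤ cz (s' f) (t' f) A := by
    by_contra hno
    have htight : ∀ f ∈ I, e ≠ f → ∃ X, cz s t X = lam ∧ o e ∈ X ∧ o f ∈ X ∧ v ∉ X := by
      intro f hf hef
      have : ¬ ∀ A, Odd (cz (s' f) (t' f) A) → lam ≤ cz (s' f) (t' f) A :=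
        fun h => hno ⟨f, hf, hef, h⟩
      push Not at this
      obtain ⟨A, hA1, hA2⟩ := this
      rw [hcz f hf hef] at hA1 hA2
      have h1 := hc A
      rw [Int.odd_iff] at h1 hA1 hodd
      split_ifs at hA1 hA2 with hcond
      · have hA : cz s t A = lam := by omega
        by_cases hv : v ∈ A
        · refine ⟨Aᶜ, ?_, ?_, ?_, by simpa using hv⟩
          · rw [← hA]
            unfold cz
            exact Finset.sum_congr rfl fun g _ => by simp only [mem_compl, not_iff_not]
          · rw [mem_compl]; tauto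
          · rw [mem_compl]; tauto
        · exact ⟨A, hA, by tauto, by tauto, hv⟩
      · omega
    have hall : ∀ J : Finset E, J ⊆ I → ∃ X, cz s t X = lam ∧ o e ∈ X ∧ v ∉ X ∧
        ∀ f ∈ J, o f ∈ X := by
      intro J
      induction J using Finset.induction_on with
      | empty =>
        intro _
        obtain ⟨X, h1, h2, -, h4⟩ := htight f0 hf0 hef0
        exact ⟨X, h1, h2, h4, by simp⟩
      | insert f J _ ih =>
        intro hJ
        obtain ⟨X, h1, h2, h3, h4⟩ := ih ((subset_insert _ _).trans hJ)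
        by_cases hef : e = f
        · refine ⟨X, h1, h2, h3, fun g hg => ?_⟩
          rcases mem_insert.1 hg with rfl | hg
          exacts [hef ▸ h2, h4 g hg]
        · obtain ⟨Y, g1, g2, g3, g4⟩ := htight f (hJ (mem_insert_self _ _)) hef
          refine ⟨X ∪ Y, cz_union s t lam hodd hc X Y h1 g1 e ?_, mem_union_left _ h2,
            by simp [h3, g4], fun g hg => ?_⟩
          · rcases (ho e he).2 with ⟨a1, a2⟩ | ⟨a1, a2⟩ <;> rw [a1, a2] <;> tauto
          · rcases mem_insert.1 hg with rfl | hg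
            exacts [mem_union_right _ g3, mem_union_left _ (h4 g hg)]
    obtain ⟨X, h1, -, h3, h4⟩ := hall I subset_rfl
    have hins : cz s t (insert v X) + cz s t {v} = cz s t X := by
      unfold cz
      rw [← Finset.sum_add_distrib]
      refine Finset.sum_congr rfl fun g _ => ?_
      by_cases hg : g ∈ I
      · have h5 := h4 g hg
        have h6 := (ho g hg).1
        rcases (ho g hg).2 with ⟨a1, a2⟩ | ⟨a1, a2⟩ <;> rw [a1, a2] <;> simp [h3, h5, h6]
      · have h5 : s g = v ↔ t g = v := by simpa [hI] using hg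
        by_cases a : s g = v
        · simp [a, h5.1 a]
        · have b : ¬ t g = v := fun h => a (h5.2 h)
          simp [a, b]
    have h2 := hc (insert v X)
    rw [Int.odd_iff] at h2 hodd
    rw [Int.even_iff] at hev
    omega
  obtain ⟨f, hf, hef, hgood⟩ := hex
  obtain ⟨h1, h2, h3, h4, h5⟩ := hs' f hef
  refine ⟨s' f, t' f, ?_, hgood, ?_⟩
  · apply Finset.card_lt_card
    have hn : ∀ g ∈ I, s g ≠ t g := by
      intro g hg h
      exact (mem_filter.1 hg).2 (by rw [h])
    refine ⟨fun g hg => ?_, fun h => ?_⟩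
    · simp only [mem_filter, mem_univ, true_and] at hg ⊢
      by_cases a : g = e
      · exact a ▸ hn e he
      by_cases b : g = f
      · exact b ▸ hn f hf
      rwa [(h5 g a b).1, (h5 g a b).2] at hg
    · have := h (mem_filter.2 ⟨mem_univ f, hn f hf⟩)
      simp [h3, h4] at this
  · rintro ⟨x, hx, hd⟩
    let σ : E → ℤ := fun g => if s g = v then -1 else 1
    refine ⟨Function.update (Function.update x e (σ e * x e)) f (-σ f * x e), fun g => ?_,
      fun z => ?_⟩
    · by_cases b : g = f
      · subst b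
        simp only [Function.update_self, σ]
        rcases hx e with h | h <;> split_ifs <;> simp [h]
      by_cases a : g = e
      · subst a
        simp only [Function.update_of_ne b, Function.update_self, σ]
        rcases hx g with h | h <;> split_ifs <;> simp [h]
      simpa [a, b] using hx g
    · convert hd z using 1
      unfold bdry
      rw [sum_two _ (fun g => (if s' f g = z then x g else 0) - (if t' f g = z then x g else 0))
        e f hef (fun g a b => by simp [(h5 g a b).1, (h5 g a b).2, a, b]), h1, h2, h3, h4]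
      have n1 := (ho e he).1
      have n2 := (ho f hf).1
      simp only [Function.update_self, Function.update_of_ne hef, σ]
      rcases (ho e he).2 with ⟨a1, a2⟩ | ⟨a1, a2⟩ <;> rcases (ho f hf).2 with ⟨b1, b2⟩ | ⟨b1, b2⟩ <;>
        rw [a1, a2, b1, b2] <;> simp only [n1, n2, if_true, if_false] <;> split_ifs <;> ring

theorem orient (k : ℕ) (n : ℕ) : ∀ s t : E → V, #{e | s e ≠ t e} = n →
    (∀ A, Odd (cz s t A) → 4 * k + 3 ≤ cz s t A) → HasOr s t (2 * k + 1) := by
  induction n using Nat.strong_induction_on with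
  | _ n ih =>
  intro s t hn hc
  have hnn : ∀ v, 0 ≤ cz s t {v} := fun v => Finset.sum_nonneg fun e _ => by
    split_ifs <;> norm_num
  by_cases hev : ∃ v, Even (cz s t {v}) ∧ 0 < cz s t {v}
  · obtain ⟨v, h1, h2⟩ := hev
    obtain ⟨s', t', g1, g2, g3⟩ := split_step (2 * k + 1) (4 * k + 3)
      ⟨2 * k + 1, by ring⟩ s t hc v h1 h2
    exact g3 (ih _ (hn ▸ g1) s' t' rfl g2)
  set D : Finset E := {e | s e ≠ t e} with hD
  rcases D.eq_empty_or_nonempty with hemp | hne
  · refine ⟨fun _ => 1, fun _ => Or.inl rfl, fun v => ?_⟩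
    have : bdry s t (fun _ => 1) v = 0 := by
      unfold bdry
      refine Finset.sum_eq_zero fun e _ => ?_
      have : e ∉ D := by simp [hemp]
      have h : s e = t e := by simpa [hD] using this
      simp [h]
    simp [this]
  set V' : Finset V := {v | 0 < cz s t {v}} with hV'
  have hmem : ∀ e ∈ D, s e ∈ V' ∧ t e ∈ V' := by
    intro e he
    have hst : s e ≠ t e := (mem_filter.1 he).2
    constructor <;>
    · refine mem_filter.2 ⟨mem_univ _, ?_⟩
      refine Finset.sum_pos' (fun g _ => by split_ifs <;> norm_num) ⟨e, mem_univ _, ?_⟩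
      simp [hst, hst.symm]
  have hsum : ∑ v, cz s t {v} = 2 * D.card := by
    unfold cz
    rw [Finset.sum_comm, hD, Finset.card_filter]
    push_cast
    rw [Finset.mul_sum]
    refine Finset.sum_congr rfl fun e _ => ?_
    by_cases h : s e = t e
    · simp [h]
    · have : ∀ v, (if (s e ∈ ({v} : Finset V) ↔ t e ∈ ({v} : Finset V)) then (0 : ℤ) else 1) =
          (if s e = v then 1 else 0) + (if t e = v then 1 else 0) := by
        intro v
        by_cases a : s e = v <;> by_cases b : t e = v <;> simp_all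
      simp only [this, Finset.sum_add_distrib, Finset.sum_ite_eq, mem_univ, if_true, ne_eq, h,
        not_false_eq_true]
      norm_num
  have hbig : (4 * k + 3 : ℤ) * V'.card ≤ 2 * D.card := by
    rw [← hsum, mul_comm, ← nsmul_eq_mul]
    refine (Finset.card_nsmul_le_sum V' (fun v => cz s t {v}) _ fun v hv => ?_).trans
      (Finset.sum_le_sum_of_subset_of_nonneg (subset_univ _) fun v _ _ => hnn v)
    refine hc _ (Int.not_even_iff_odd.1 fun h => hev ⟨v, h, (mem_filter.1 hv).2⟩)
  have hrk : finrank ℝ (Submodule.span ℝ (chi s t '' (D : Set E))) ≤ V'.card := by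
    have hle : Submodule.span ℝ (chi s t '' (D : Set E)) ≤ Submodule.span ℝ
        ((V'.image fun v => (Pi.single v 1 : V → ℝ) : Finset (V → ℝ)) : Set (V → ℝ)) := by
      rw [Submodule.span_le]
      rintro _ ⟨e, he, rfl⟩
      have : chi s t e = Pi.single (s e) 1 - Pi.single (t e) 1 := by
        ext v
        simp [chi, Pi.single_apply, eq_comm]
      rw [this]
      refine Submodule.sub_mem _ (Submodule.subset_span ?_) (Submodule.subset_span ?_)
      · exact mem_coe.2 (mem_image_of_mem _ (hmem e he).1)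
      · exact mem_coe.2 (mem_image_of_mem _ (hmem e he).2)
    exact (Submodule.finrank_mono hle).trans
      ((finrank_span_finset_le_card _).trans Finset.card_image_le)
  have hV'pos : 0 < V'.card := by
    obtain ⟨e, he⟩ := hne
    exact Finset.card_pos.2 ⟨_, (hmem e he).1⟩
  obtain ⟨F0, hF0D, ⟨e0, he0⟩, hlt, hr⟩ := exists_densest (2 * k + 1) s t D
    (fun e he => (mem_filter.1 he).2) (by
      have h1 := Nat.mul_le_mul_left (2 * k + 1) hrk
      have h2 : (4 * k + 3) * V'.card ≤ 2 * D.card := by exact_mod_cast hbig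
      nlinarith)
  obtain ⟨π, h1, h2, h3⟩ := exists_contraction s t F0
  refine contract_step k s t F0 hlt hr π h1 h2 h3 (ih _ ?_ _ _ rfl fun A hA => ?_)
  · rw [← hn]
    apply Finset.card_lt_card
    refine ⟨fun g hg => ?_, fun h => ?_⟩
    · simp only [hD, mem_filter, mem_univ, true_and, Function.comp] at hg ⊢
      exact fun h => hg (by rw [h])
    · have := h (hF0D he0)
      simp [h1 e0 he0] at this
  · have : cz (π ∘ s) (π ∘ t) A = cz s t {v | π v ∈ A} := by
      unfold cz
      simp
    rw [this] at hA ⊢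
    exact hc _ hA

end Pool.Agent.P.MP_da739a_co
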