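import Mathlib

/-! A covering theorem for zonotopes (energy minimisation with max-entropy weights). -/

open Finset Matrix Module

namespace Pool.Agent.P.MP_da739a_co

section Coord
variable {ι E : Type} [Fintype ι] [DecidableEq ι] [Fintype E] [DecidableEq E]

/-- weighted Gram matrix -/
noncomputable def gram (a : E → ι → ℝ) (γ : E → ℝ) : Matrix ι ι ℝ :=
  ∑ e, γ e • vecMulVec (a e) (a e)

lemma det_update (M : Matrix ι ι ℝ) (hM : IsUnit M.det) (v : ι → ℝ) (s : ℝ) :
    (M + s • vecMulVec v v).det = M.det * (1 + s * (v ⬝ᵥ M⁻¹ *ᵥ v)) := by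
  have h1 : s • vecMulVec v v = replicateCol Unit (s • v) * replicateRow Unit v := by
    rw [← vecMulVec_eq Unit]
    ext i j
    simp [vecMulVec_apply, mul_assoc]
  rw [h1, det_add_replicateCol_mul_replicateRow hM, det_unique (n := Unit)]
  congr 1
  simp only [Matrix.add_apply, Matrix.one_apply_eq, add_right_inj]
  rw [Matrix.mul_assoc, ← replicateCol_mulVec, replicateRow_mul_replicateCol_apply, mulVec_smul,
    dotProduct_smul, smul_eq_mul]

omit [DecidableEq ι] [DecidableEq E] [Fintype E] in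
lemma sum_mulVec' (a : E → ι → ℝ) (γ : E → ℝ) (S : Finset E) (x : ι → ℝ) :
    (∑ e ∈ S, γ e • vecMulVec (a e) (a e)) *ᵥ x = ∑ e ∈ S, (γ e * (a e ⬝ᵥ x)) • a e := by
  rw [Matrix.sum_mulVec]
  refine Finset.sum_congr rfl fun e _ => ?_
  rw [Matrix.smul_mulVec, vecMulVec_mulVec]
  ext i
  simp [mul_comm, mul_left_comm]

omit [DecidableEq ι] [DecidableEq E] [Fintype E] in
lemma psd_term (v : ι → ℝ) (c : ℝ) (hc : 0 ≤ c) : (c • vecMulVec v v).PosSemidef := by
  have := posSemidef_vecMulVec_self_star v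
  simp only [star_trivial] at this
  exact this.smul hc

omit [DecidableEq ι] [DecidableEq E] [Fintype E] in
lemma posDef_sum_of_span (a : E → ι → ℝ) (γ : E → ℝ) (S : Finset E)
    (hspan : Submodule.span ℝ (a '' (S : Set E)) = ⊤) (hγ : ∀ e, 0 < γ e) :
    (∑ e ∈ S, γ e • vecMulVec (a e) (a e)).PosDef := by
  have hpsd : (∑ e ∈ S, γ e • vecMulVec (a e) (a e)).PosSemidef :=
    posSemidef_sum _ fun e _ => psd_term _ _ (hγ e).le
  refine PosDef.of_dotProduct_mulVec_pos hpsd.isHermitian fun x hx => ?_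
  rw [star_trivial, sum_mulVec', dotProduct_sum]
  have hnn : ∀ e ∈ S, 0 ≤ x ⬝ᵥ (γ e * (a e ⬝ᵥ x)) • a e := by
    intro e _
    rw [dotProduct_smul, smul_eq_mul, dotProduct_comm x, mul_assoc]
    exact mul_nonneg (hγ e).le (mul_self_nonneg _)
  refine lt_of_le_of_ne (Finset.sum_nonneg hnn) fun h0 => hx ?_
  have hz := (Finset.sum_eq_zero_iff_of_nonneg hnn).1 h0.symm
  have hall : ∀ y ∈ Submodule.span ℝ (a '' (S : Set E)), y ⬝ᵥ x = 0 := by
    intro y hy
    induction hy using Submodule.span_induction with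
    | mem y hy =>
      obtain ⟨e, he, rfl⟩ := hy
      have := hz e he
      rw [dotProduct_smul, smul_eq_mul, dotProduct_comm x, mul_assoc] at this
      rcases mul_eq_zero.1 this with h | h
      · exact absurd h (hγ e).ne'
      · exact mul_self_eq_zero.1 h
    | zero => simp
    | add y z _ _ h1 h2 => rw [add_dotProduct, h1, h2, add_zero]
    | smul c y _ h1 => rw [smul_dotProduct, h1, smul_zero]
  exact dotProduct_self_eq_zero.1 (hall x (by rw [hspan]; trivial))

omit [Fintype E] in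
lemma det_mono (a : E → ι → ℝ) (γ : E → ℝ) (hγ : ∀ e, 0 < γ e) (X : Matrix ι ι ℝ) (hX : X.PosDef)
    (S : Finset E) : X.det ≤ (X + ∑ e ∈ S, γ e • vecMulVec (a e) (a e)).det := by
  induction S using Finset.induction_on with
  | empty => simp
  | insert e S he ih =>
    rw [Finset.sum_insert he, add_comm (γ e • _), ← add_assoc]
    have hP : (X + ∑ e ∈ S, γ e • vecMulVec (a e) (a e)).PosDef :=
      hX.add_posSemidef (posSemidef_sum _ fun e _ => psd_term _ _ (hγ e).le)
    rw [det_update _ hP.det_pos.ne'.isUnit]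
    have h1 : 0 ≤ a e ⬝ᵥ (X + ∑ e ∈ S, γ e • vecMulVec (a e) (a e))⁻¹ *ᵥ a e := by
      simpa using hP.inv.posSemidef.dotProduct_mulVec_nonneg (a e)
    have h2 := hP.det_pos
    have h3 := mul_nonneg (hγ e).le h1
    nlinarith [mul_nonneg h2.le h3]

omit [Fintype E] [DecidableEq ι] in
lemma greedy (a : E → ι → ℝ) (N d : ℕ)
    (hr : ∀ F : Finset E, d * F.card ≤ N * finrank ℝ (Submodule.span ℝ (a '' (F : Set E))))
    (t : E → ℝ) (F : Finset E) :
    ∃ B ⊆ F, LinearIndepOn ℝ a (B : Set E) ∧ (∀ e ∈ F, a e ∈ Submodule.span ℝ (a '' (B : Set E))) ∧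
      ∀ s, (∀ e ∈ F, s ≤ t e) → (d : ℝ) * ∑ e ∈ F, (t e - s) ≤ N * ∑ e ∈ B, (t e - s) := by
  induction F using Finset.induction_on_min_value t with
  | empty => exact ⟨∅, by simp, by simp, by simp, by simp⟩
  | insert e F he hmin ih =>
    obtain ⟨B, hBF, hli, hsp, hs⟩ := ih
    have key : ∀ B' : Finset E, (∀ x ∈ insert e F, a x ∈ Submodule.span ℝ (a '' (B' : Set E))) →
        ∑ x ∈ B', (t x - t e) = ∑ x ∈ B, (t x - t e) →
        ∀ s, (∀ x ∈ insert e F, s ≤ t x) →
        (d : ℝ) * ∑ x ∈ insert e F, (t x - s) ≤ N * ∑ x ∈ B', (t x - s) := by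
      intro B' h1 h2 s h3
      have hse : 0 ≤ t e - s := sub_nonneg.2 (h3 e (mem_insert_self _ _))
      have e1 : ∀ G : Finset E, ∑ x ∈ G, (t x - s) = ∑ x ∈ G, (t x - t e) + G.card * (t e - s) := by
        intro G
        rw [← nsmul_eq_mul, ← Finset.sum_const, ← Finset.sum_add_distrib]
        exact Finset.sum_congr rfl fun x _ => by ring
      have hrk : finrank ℝ (Submodule.span ℝ (a '' ((insert e F : Finset E) : Set E))) ≤ B'.card := by
        have hle : Submodule.span ℝ (a '' ((insert e F : Finset E) : Set E)) ≤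
            Submodule.span ℝ ((B'.image a : Finset (ι → ℝ)) : Set (ι → ℝ)) := by
          rw [Submodule.span_le]
          rintro _ ⟨x, hx, rfl⟩
          simpa using h1 x hx
        exact (Submodule.finrank_mono hle).trans
          ((finrank_span_finset_le_card _).trans Finset.card_image_le)
      have hc : (d : ℝ) * (insert e F).card ≤ N * B'.card := by
        exact_mod_cast (hr (insert e F)).trans (Nat.mul_le_mul_left _ hrk)
      have h4 := hs (t e) hmin
      rw [e1 (insert e F), e1 B', h2, Finset.sum_insert he, sub_self, zero_add]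
      nlinarith [mul_le_mul_of_nonneg_right hc hse]
    by_cases hin : a e ∈ Submodule.span ℝ (a '' (B : Set E))
    · refine ⟨B, hBF.trans (subset_insert _ _), hli, ?_, key B ?_ rfl⟩ <;>
      · intro x hx
        rcases mem_insert.1 hx with rfl | hx
        exacts [hin, hsp x hx]
    · have heB : e ∉ B := fun h => he (hBF h)
      have hsp' : ∀ x ∈ insert e F, a x ∈ Submodule.span ℝ (a '' ((insert e B : Finset E) : Set E)) := by
        intro x hx
        rcases mem_insert.1 hx with rfl | hx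
        · exact Submodule.subset_span ⟨x, by simp, rfl⟩
        · exact Submodule.span_mono (Set.image_mono (by simp)) (hsp x hx)
      refine ⟨insert e B, insert_subset_insert _ hBF, ?_, hsp', key _ hsp' ?_⟩
      · rw [coe_insert]
        exact hli.insert hin
      · rw [Finset.sum_insert heB, sub_self, zero_add]

lemma lower_bound (a : E → ι → ℝ) (hspan : Submodule.span ℝ (Set.range a) = ⊤)
    (hr : ∀ F : Finset E, Fintype.card ι * F.card ≤
      Fintype.card E * finrank ℝ (Submodule.span ℝ (a '' (F : Set E)))) :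
    ∃ κ : ℝ, ∀ γ : E → ℝ, (∀ e, 0 < γ e) →
      κ ≤ Fintype.card E * Real.log (gram a γ).det - Fintype.card ι * ∑ e, Real.log (γ e) := by
  refine ⟨-∑ β : ι → E, |(Fintype.card E : ℝ) *
    Real.log ((Matrix.of fun i j => a (β j) i).det ^ 2)|, fun γ hγ => ?_⟩
  obtain ⟨B, -, hli, hsp, hs⟩ := greedy a _ _ hr (fun e => Real.log (γ e)) univ
  have hspB : Submodule.span ℝ (a '' (B : Set E)) = ⊤ := by
    rw [eq_top_iff, ← hspan, Submodule.span_le]
    rintro _ ⟨x, rfl⟩
    exact hsp x (mem_univ _)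
  have hcard : Fintype.card ι = Fintype.card B := by
    have h1 : Fintype.card B = finrank ℝ (ι → ℝ) := by
      have hb : Module.Basis B ℝ (ι → ℝ) := Module.Basis.mk (v := fun x : B => a x) hli (by
        rw [← hspB]
        refine Submodule.span_mono ?_
        rintro _ ⟨x, hx, rfl⟩
        exact ⟨⟨x, hx⟩, rfl⟩)
      exact (finrank_eq_card_basis hb).symm
    rw [h1, finrank_fintype_fun_eq_card]
  let β : ι ≃ B := Fintype.equivOfCardEq hcard
  set A : Matrix ι ι ℝ := Matrix.of fun i j => a (β j) i with hA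
  have hAdet : A.det ≠ 0 := by
    have : IsUnit A := by
      rw [← Matrix.linearIndependent_cols_iff_isUnit]
      exact hli.comp β β.injective
    exact ((Matrix.isUnit_iff_isUnit_det A).1 this).ne_zero
  have hX : ∑ e ∈ B, γ e • vecMulVec (a e) (a e) = A * diagonal (fun j => γ (β j)) * Aᵀ := by
    rw [← Finset.sum_coe_sort B, ← Equiv.sum_comp β]
    ext i j
    simp only [Matrix.sum_apply, Matrix.smul_apply, vecMulVec_apply, smul_eq_mul, Matrix.mul_apply,
      diagonal_apply, hA, of_apply, transpose_apply, mul_ite, mul_zero, Finset.sum_ite_eq',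
      mem_univ, if_true]
    exact Finset.sum_congr rfl fun k _ => by ring
  have hdetX : (∑ e ∈ B, γ e • vecMulVec (a e) (a e)).det = A.det ^ 2 * ∏ e ∈ B, γ e := by
    rw [hX, det_mul, det_mul, det_transpose, det_diagonal, ← Finset.prod_coe_sort B,
      ← Equiv.prod_comp β]
    ring
  have hmono := det_mono a γ hγ _ (posDef_sum_of_span a γ B hspB hγ) Bᶜ
  rw [Finset.sum_add_sum_compl, hdetX] at hmono
  have hp : 0 < ∏ e ∈ B, γ e := Finset.prod_pos fun e _ => hγ e
  have hA2 : 0 < A.det ^ 2 := by positivity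
  have hlog := Real.log_le_log (mul_pos hA2 hp) hmono
  rw [Real.log_mul hA2.ne' hp.ne', Real.log_prod (fun e _ => (hγ e).ne')] at hlog
  obtain ⟨s, hs0⟩ : ∃ s : ℝ, ∀ e ∈ (univ : Finset E), s ≤ Real.log (γ e) := by
    obtain ⟨s, hs⟩ := (Set.finite_range fun e => Real.log (γ e)).bddBelow
    exact ⟨s, fun e _ => hs ⟨e, rfl⟩⟩
  have h1 := hs s hs0
  rw [Finset.sum_sub_distrib, Finset.sum_sub_distrib, Finset.sum_const, Finset.sum_const,
    card_univ, ← Fintype.card_coe B, ← hcard, nsmul_eq_mul, nsmul_eq_mul] at h1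
  have h2 := Finset.single_le_sum (f := fun β : ι → E => |(Fintype.card E : ℝ) *
    Real.log ((Matrix.of fun i j => a (β j) i).det ^ 2)|) (fun _ _ => abs_nonneg _)
    (mem_univ (fun j => (β j : E)))
  have h3 := neg_abs_le ((Fintype.card E : ℝ) * Real.log (A.det ^ 2))
  have h4 : (0 : ℝ) ≤ Fintype.card E := Nat.cast_nonneg _
  have h5 := mul_le_mul_of_nonneg_left hlog h4
  simp only [← hA] at h2
  unfold gram
  nlinarith

lemma exists_weights (a : E → ι → ℝ) (hspan : Submodule.span ℝ (Set.range a) = ⊤)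
    (hr : ∀ F : Finset E, Fintype.card ι * F.card ≤
      Fintype.card E * finrank ℝ (Submodule.span ℝ (a '' (F : Set E))))
    (m : ℕ) (hm : 0 < m) (hlt : m * Fintype.card ι < Fintype.card E) :
    ∃ γ : E → ℝ, (∀ e, 0 < γ e) ∧ ∀ e, m * (γ e * (a e ⬝ᵥ (gram a γ)⁻¹ *ᵥ a e)) < 1 := by
  obtain ⟨κ, hκ⟩ := lower_bound a hspan hr
  set N : ℝ := (Fintype.card E : ℝ) with hN
  set d : ℝ := (Fintype.card ι : ℝ) with hd
  have hd0 : 0 ≤ d := Nat.cast_nonneg _
  have hm1 : (1 : ℝ) ≤ m := by exact_mod_cast hm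
  have hNd : m * d + 1 ≤ N := by rw [hN, hd]; exact_mod_cast hlt
  have hN1 : 1 ≤ N := by nlinarith
  let G : (E → ℝ) → ℝ := fun γ => N * Real.log (gram a γ).det - d * ∑ e, Real.log (γ e)
  let S : Set ℝ := G '' {γ | ∀ e, 0 < γ e}
  have hSne : S.Nonempty := ⟨_, ⟨fun _ => 1, fun _ => one_pos, rfl⟩⟩
  have hSb : BddBelow S := ⟨κ, by rintro _ ⟨γ, hγ, rfl⟩; exact hκ γ hγ⟩
  set σ : ℝ := 1 / (2 * N) with hσ
  have hσ0 : 0 < σ := by positivity
  have hσN : σ * (2 * N) = 1 := by rw [hσ]; field_simp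
  have hσ1 : σ ≤ 1 / 2 := by nlinarith
  have hδ : 0 < σ * σ / m := by positivity
  obtain ⟨_, ⟨γ, hγ, rfl⟩, hlt'⟩ := exists_lt_of_csInf_lt hSne (lt_add_of_pos_right (sInf S) hδ)
  refine ⟨γ, hγ, fun e => ?_⟩
  have hsp : Submodule.span ℝ (a '' ((univ : Finset E) : Set E)) = ⊤ := by simpa using hspan
  let γ' : E → ℝ := Function.update γ e ((1 - σ) * γ e)
  have hγ' : ∀ x, 0 < γ' x := by
    intro x
    by_cases hx : x = e
    · subst hx
      simp only [γ', Function.update_self]
      exact mul_pos (by linarith) (hγ x)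
    · simp only [γ', Function.update_of_ne hx]
      exact hγ x
  have hP : (gram a γ).PosDef := posDef_sum_of_span a γ univ hsp hγ
  have hP' : (gram a γ').PosDef := posDef_sum_of_span a γ' univ hsp hγ'
  have hg : gram a γ' = gram a γ + (-(σ * γ e)) • vecMulVec (a e) (a e) := by
    unfold gram
    rw [← Finset.add_sum_erase _ _ (mem_univ e), ← Finset.add_sum_erase _ _ (mem_univ e)]
    have : ∑ x ∈ univ.erase e, γ' x • vecMulVec (a x) (a x) =
        ∑ x ∈ univ.erase e, γ x • vecMulVec (a x) (a x) :=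
      Finset.sum_congr rfl fun x hx => by
        simp only [γ', Function.update_of_ne (Finset.ne_of_mem_erase hx)]
    rw [this]
    simp only [γ', Function.update_self]
    module
  have hl : ∑ x, Real.log (γ' x) = ∑ x, Real.log (γ x) + Real.log (1 - σ) := by
    rw [← Finset.add_sum_erase _ _ (mem_univ e), ← Finset.add_sum_erase _ _ (mem_univ e)]
    have : ∑ x ∈ univ.erase e, Real.log (γ' x) = ∑ x ∈ univ.erase e, Real.log (γ x) :=
      Finset.sum_congr rfl fun x hx => by
        simp only [γ', Function.update_of_ne (Finset.ne_of_mem_erase hx)]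
    rw [this]
    simp only [γ', Function.update_self]
    rw [Real.log_mul (by linarith) (hγ e).ne']
    ring
  set x : ℝ := γ e * (a e ⬝ᵥ (gram a γ)⁻¹ *ᵥ a e) with hx
  have hdet : (gram a γ').det = (gram a γ).det * (1 - σ * x) := by
    rw [hg, det_update _ hP.det_pos.ne'.isUnit, hx]
    ring
  have hpos : 0 < 1 - σ * x := by
    have := hP'.det_pos
    rw [hdet] at this
    exact (mul_pos_iff_of_pos_left hP.det_pos).1 this
  have hle : sInf S ≤ G γ' := csInf_le hSb ⟨γ', hγ', rfl⟩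
  have hG : G γ' = G γ + N * Real.log (1 - σ * x) - d * Real.log (1 - σ) := by
    simp only [G]
    rw [hdet, hl, Real.log_mul hP.det_pos.ne' hpos.ne']
    ring
  have h1 : Real.log (1 - σ * x) ≤ -(σ * x) := by
    have := Real.log_le_sub_one_of_pos hpos
    linarith
  have h2 : -Real.log (1 - σ) ≤ σ * (1 + 2 * σ) := by
    have h := Real.log_le_sub_one_of_pos (show 0 < (1 - σ)⁻¹ by
      apply inv_pos.2; linarith)
    rw [Real.log_inv] at h
    have : (1 - σ)⁻¹ ≤ 1 + σ * (1 + 2 * σ) := by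
      rw [inv_le_iff_one_le_mul₀ (by linarith)]
      nlinarith [mul_nonneg (mul_nonneg hσ0.le hσ0.le) (show 0 ≤ 1 - 2 * σ by linarith)]
    linarith
  have h3 : N * (σ * x) < σ * σ / m + d * (σ * (1 + 2 * σ)) := by
    have := mul_le_mul_of_nonneg_left h1 (show 0 ≤ N by linarith)
    have := mul_le_mul_of_nonneg_left h2 hd0
    linarith
  have h4 : N * x < σ / m + d * (1 + 2 * σ) := by
    have : σ * (N * x) < σ * (σ / m + d * (1 + 2 * σ)) := by
      have e : σ * (σ / m + d * (1 + 2 * σ)) = σ * σ / m + d * (σ * (1 + 2 * σ)) := by ring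
      rw [e]; linarith
    exact lt_of_mul_lt_mul_left this hσ0.le
  have h5 : N * (m * x) < σ + m * d * (1 + 2 * σ) := by
    have := mul_lt_mul_of_pos_left h4 (show (0 : ℝ) < m by linarith)
    have e : (m : ℝ) * (σ / m + d * (1 + 2 * σ)) = σ + m * d * (1 + 2 * σ) := by
      field_simp
    rw [e] at this
    linarith
  have h6 : σ + m * d * (1 + 2 * σ) ≤ N * 1 := by
    have := mul_le_mul_of_nonneg_right (show m * d ≤ N - 1 by linarith)
      (show 0 ≤ 1 + 2 * σ by linarith)
    nlinarith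
  exact lt_of_mul_lt_mul_left (h5.trans_le h6) (by linarith)

lemma cover_coord (a : E → ι → ℝ) (hspan : Submodule.span ℝ (Set.range a) = ⊤)
    (hr : ∀ F : Finset E, Fintype.card ι * F.card ≤
      Fintype.card E * finrank ℝ (Submodule.span ℝ (a '' (F : Set E))))
    (m : ℕ) (hm : 0 < m) (hlt : m * Fintype.card ι < Fintype.card E) (p : ι → ℝ) :
    ∃ (y : E → ℤ) (f : E → ℝ), (∀ e, |f e| ≤ 1) ∧
      p + ∑ e, (2 * m * (y e : ℝ)) • a e = ∑ e, f e • a e := by
  obtain ⟨γ, hγ, hw⟩ := exists_weights a hspan hr m hm hlt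
  have hsp : Submodule.span ℝ (a '' ((univ : Finset E) : Set E)) = ⊤ := by simpa using hspan
  have hP : (gram a γ).PosDef := posDef_sum_of_span a γ univ hsp hγ
  set K := (gram a γ)⁻¹ with hK
  have hKs : ∀ u v : ι → ℝ, u ⬝ᵥ K *ᵥ v = v ⬝ᵥ K *ᵥ u := by
    intro u v
    have h : Kᵀ = K := by
      have := hP.inv.isHermitian
      rwa [IsHermitian, conjTranspose_eq_transpose_of_trivial] at this
    rw [dotProduct_mulVec, ← mulVec_transpose, h, dotProduct_comm]
  have hm0 : (0 : ℝ) < m := by exact_mod_cast hm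
  let b : (E → ℤ) → ι → ℝ := fun y => p + ∑ e, (2 * m * (y e : ℝ)) • a e
  let En : (E → ℤ) → ℝ := fun y => b y ⬝ᵥ K *ᵥ b y
  have hne : Nonempty E := Fintype.card_pos_iff.1 (by omega)
  obtain ⟨e0, he0⟩ := Finite.exists_min fun e => (1 - m * (γ e * (a e ⬝ᵥ K *ᵥ a e))) / γ e
  set δ := (1 - m * (γ e0 * (a e0 ⬝ᵥ K *ᵥ a e0))) / γ e0 with hδ
  have hδ0 : 0 < δ := div_pos (by linarith [hw e0]) (hγ e0)
  have hSb : BddBelow (Set.range En) := ⟨0, by
    rintro _ ⟨y, rfl⟩
    simpa using hP.inv.posSemidef.dotProduct_mulVec_nonneg (b y)⟩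
  obtain ⟨_, ⟨y, rfl⟩, hy⟩ := exists_lt_of_csInf_lt (Set.range_nonempty En)
    (lt_add_of_pos_right (sInf (Set.range En)) (mul_pos (mul_pos four_pos hm0) hδ0))
  refine ⟨y, fun e => γ e * (a e ⬝ᵥ K *ᵥ b y), fun e => ?_, ?_⟩
  · have step : ∀ ε : ℤ, ε * ε = 1 →
        -δ < ε * (a e ⬝ᵥ K *ᵥ b y) + m * (a e ⬝ᵥ K *ᵥ a e) := by
      intro ε hε
      have hε' : (ε : ℝ) * ε = 1 := by exact_mod_cast hε
      have hb : b (y + Pi.single e ε) = b y + (2 * m * (ε : ℝ)) • a e := by
        simp only [b, Pi.add_apply, Int.cast_add, mul_add, add_smul, Finset.sum_add_distrib,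
          add_assoc]
        congr 2
        rw [Finset.sum_eq_single e]
        · simp
        · intro x _ hx
          simp [Pi.single_eq_of_ne hx]
        · simp
      have hle : sInf (Set.range En) ≤ En (y + Pi.single e ε) := csInf_le hSb ⟨_, rfl⟩
      have hE : En (y + Pi.single e ε) = En y + 4 * m *
          (ε * (a e ⬝ᵥ K *ᵥ b y) + m * (a e ⬝ᵥ K *ᵥ a e)) := by
        simp only [En]
        rw [hb, mulVec_add, mulVec_smul, add_dotProduct, dotProduct_add, dotProduct_add,
          smul_dotProduct, smul_dotProduct, dotProduct_smul, dotProduct_smul, hKs (b y) (a e)]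
        simp only [smul_eq_mul]
        linear_combination (4 * m * m * (a e ⬝ᵥ K *ᵥ a e)) * hε'
      have : 4 * m * (-δ) < 4 * m * (ε * (a e ⬝ᵥ K *ᵥ b y) + m * (a e ⬝ᵥ K *ᵥ a e)) := by
        linarith
      exact lt_of_mul_lt_mul_left this (by positivity)
    have h1 := step 1 (by norm_num)
    have h2 := step (-1) (by norm_num)
    have h3 : δ * γ e ≤ 1 - m * (γ e * (a e ⬝ᵥ K *ᵥ a e)) := (le_div_iff₀ (hγ e)).1 (he0 e)
    have h4 := mul_lt_mul_of_pos_left h1 (hγ e)
    have h5 := mul_lt_mul_of_pos_left h2 (hγ e)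
    push_cast at h4 h5
    rw [abs_le]
    constructor <;> nlinarith
  · have := sum_mulVec' a γ univ (K *ᵥ b y)
    rw [← this]
    change b y = gram a γ *ᵥ (K *ᵥ b y)
    rw [mulVec_mulVec, hK, Matrix.mul_nonsing_inv _ hP.det_pos.ne'.isUnit, one_mulVec]

end Coord

theorem cover {U E : Type} [AddCommGroup U] [Module ℝ U] [DecidableEq E] (χ : E → U)
    (F0 : Finset E) (m : ℕ) (hm : 0 < m)
    (hlt : m * finrank ℝ (Submodule.span ℝ (χ '' (F0 : Set E))) < F0.card)
    (hr : ∀ F ⊆ F0, finrank ℝ (Submodule.span ℝ (χ '' (F0 : Set E))) * F.card ≤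
      F0.card * finrank ℝ (Submodule.span ℝ (χ '' (F : Set E))))
    (p : U) (hp : p ∈ Submodule.span ℝ (χ '' (F0 : Set E))) :
    ∃ (y : E → ℤ) (f : E → ℝ), (∀ e, |f e| ≤ 1) ∧
      p + ∑ e ∈ F0, (2 * m * (y e : ℝ)) • χ e = ∑ e ∈ F0, f e • χ e := by
  set W := Submodule.span ℝ (χ '' (F0 : Set E)) with hW
  have : FiniteDimensional ℝ W := FiniteDimensional.span_of_finite ℝ (F0.finite_toSet.image χ)
  let T : W ≃ₗ[ℝ] (Fin (finrank ℝ W) → ℝ) := (Module.finBasis ℝ W).equivFun
  let L : (Fin (finrank ℝ W) → ℝ) →ₗ[ℝ] U := W.subtype ∘ₗ T.symm.toLinearMap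
  let a : F0 → Fin (finrank ℝ W) → ℝ := fun e => T ⟨χ e, Submodule.subset_span ⟨e, e.2, rfl⟩⟩
  have hLa : ∀ e : F0, L (a e) = χ e := fun e => by simp [L, a]
  have hLinj : Function.Injective L := W.injective_subtype.comp T.symm.injective
  have hspan : Submodule.span ℝ (Set.range a) = ⊤ := by
    apply Submodule.map_injective_of_injective hLinj
    rw [Submodule.map_span, Submodule.map_top]
    have h1 : L '' Set.range a = χ '' (F0 : Set E) := by
      ext u
      constructor
      · rintro ⟨_, ⟨e, rfl⟩, rfl⟩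
        exact ⟨e, e.2, (hLa e).symm⟩
      · rintro ⟨e, he, rfl⟩
        exact ⟨_, ⟨⟨e, he⟩, rfl⟩, hLa _⟩
    rw [h1, ← hW]
    simp [L, LinearMap.range_comp]
  obtain ⟨y, f, hf, heq⟩ := cover_coord a hspan (fun F => by
      have h1 := hr (F.map (Function.Embedding.subtype _)) (by
        intro x hx
        obtain ⟨z, -, rfl⟩ := Finset.mem_map.1 hx
        exact z.2)
      rw [Finset.card_map] at h1
      rw [Fintype.card_fin, Fintype.card_coe]
      refine h1.trans (Nat.mul_le_mul_left _ ?_)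
      have h2 : χ '' ((F.map (Function.Embedding.subtype _) : Finset E) : Set E) =
          L '' (a '' (F : Set F0)) := by
        rw [Finset.coe_map, Set.image_image, Set.image_image]
        exact Set.image_congr fun z _ => (hLa z).symm
      rw [h2, ← Submodule.map_span]
      exact Submodule.finrank_map_le _ _) m hm (by
      rw [Fintype.card_fin, Fintype.card_coe]; exact hlt) (T ⟨p, hp⟩)
  refine ⟨fun e => if h : e ∈ F0 then y ⟨e, h⟩ else 0, fun e => if h : e ∈ F0 then f ⟨e, h⟩ else 0,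
    fun e => ?_, ?_⟩
  · by_cases h : e ∈ F0
    · simpa [h] using hf ⟨e, h⟩
    · simp [h]
  · have := congrArg L heq
    simp only [map_add, map_sum, map_smul, hLa] at this
    rw [← Finset.sum_coe_sort F0, ← Finset.sum_coe_sort F0]
    simpa [L] using this

end Pool.Agent.P.MP_da739a_co
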