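import Mathlib

/-! An odd edge set with even degrees contains an odd cycle. -/

open Finset SimpleGraph

namespace Pool.Agent.P.MP_da739a_co

variable {V : Type} [Fintype V] [DecidableEq V]

lemma not_acyclic (C : Finset (Sym2 V)) (hd : ∀ e ∈ C, ¬ e.IsDiag)
    (hev : ∀ v, Even #{e ∈ C | v ∈ e}) (hne : C.Nonempty) :
    ¬ (fromEdgeSet (C : Set (Sym2 V))).IsAcyclic := by
  classical
  intro hac
  obtain ⟨e0, he0⟩ := hne
  induction e0 using Sym2.ind with
  | _ u v =>
  have huv : u ≠ v := fun h => hd _ he0 (by simp [h])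
  set H := fromEdgeSet (C : Set (Sym2 V)) with hH
  have hadj : H.Adj u v := by simp [hH, he0, huv]
  have hb := isAcyclic_iff_forall_adj_isBridge.1 hac hadj
  rw [isBridge_iff] at hb
  let A : Finset V := {w | (H.deleteEdges {s(u, v)}).Reachable u w}
  have h1 : ∑ w ∈ A, #{e ∈ C | w ∈ e} = ∑ e ∈ C, #{w ∈ A | w ∈ e} := by
    simp only [Finset.card_filter]
    exact Finset.sum_comm
  have h2 : Even (∑ w ∈ A, #{e ∈ C | w ∈ e}) := Finset.even_sum _ fun w _ => hev w
  have h3 : ∀ e ∈ C.erase s(u, v), Even #{w ∈ A | w ∈ e} := by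
    intro e he
    obtain ⟨hne, heC⟩ := Finset.mem_erase.1 he
    induction e using Sym2.ind with
    | _ a b =>
    have hab : a ≠ b := fun h => hd _ heC (by simp [h])
    have hadj' : (H.deleteEdges {s(u, v)}).Adj a b := by
      rw [deleteEdges_adj]
      exact ⟨by simp [hH, heC, hab], by simpa using hne⟩
    by_cases ha : a ∈ A
    · have hb' : b ∈ A := by
        simp only [A, Finset.mem_filter, Finset.mem_univ, true_and] at ha ⊢
        exact ha.trans hadj'.reachable
      have : ({w ∈ A | w ∈ s(a, b)} : Finset V) = {a, b} := by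
        ext w
        simp only [Finset.mem_filter, Sym2.mem_iff, Finset.mem_insert, Finset.mem_singleton]
        constructor
        · exact fun h => h.2
        · rintro (rfl | rfl)
          · exact ⟨ha, Or.inl rfl⟩
          · exact ⟨hb', Or.inr rfl⟩
      rw [this, Finset.card_pair hab]
      exact even_two
    · have hb' : b ∉ A := by
        simp only [A, Finset.mem_filter, Finset.mem_univ, true_and] at ha ⊢
        exact fun h => ha (h.trans hadj'.symm.reachable)
      have : ({w ∈ A | w ∈ s(a, b)} : Finset V) = ∅ := by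
        ext w
        simp only [Finset.mem_filter, Sym2.mem_iff, Finset.notMem_empty, iff_false, not_and]
        rintro hw (rfl | rfl)
        · exact ha hw
        · exact hb' hw
      rw [this]
      simp
  have h4 : ({w ∈ A | w ∈ s(u, v)} : Finset V) = {u} := by
    ext w
    simp only [Finset.mem_filter, Sym2.mem_iff, Finset.mem_singleton]
    constructor
    · rintro ⟨hw, rfl | rfl⟩
      · rfl
      · exfalso
        simp only [A, Finset.mem_filter, Finset.mem_univ, true_and] at hw
        exact hb hw
    · rintro rfl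
      exact ⟨by simp [A], Or.inl rfl⟩
  rw [h1, ← Finset.add_sum_erase _ _ he0, h4, Finset.card_singleton] at h2
  have h5 : Even (∑ e ∈ C.erase s(u, v), #{w ∈ A | w ∈ e}) := Finset.even_sum _ h3
  rcases h2 with ⟨a, ha⟩
  rcases h5 with ⟨b, hb⟩
  omega

lemma odd_cycle (G : SimpleGraph V) (n : ℕ) : ∀ C : Finset (Sym2 V), #C = n →
    (∀ e ∈ C, e ∈ G.edgeSet) → (∀ v, Even #{e ∈ C | v ∈ e}) → Odd #C →
    ∃ v, ∃ c : G.Walk v v, c.IsCycle ∧ Odd c.length ∧ c.length ≤ #C := by
  induction n using Nat.strong_induction_on with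
  | _ n ih =>
  intro C hn hG hev hodd
  have hne : C.Nonempty := Finset.card_pos.1 hodd.pos
  have hna := not_acyclic C (fun e he => G.not_isDiag_of_mem_edgeSet (hG e he)) hev hne
  simp only [IsAcyclic, not_forall, not_not] at hna
  obtain ⟨v, c, hc⟩ := hna
  have hsub : ∀ e ∈ c.edges, e ∈ C := by
    intro e he
    have := c.edges_subset_edgeSet he
    rw [edgeSet_fromEdgeSet] at this
    exact this.1
  have hsubG : ∀ e ∈ c.edges, e ∈ G.edgeSet := fun e he => hG e (hsub e he)
  let D : Finset (Sym2 V) := c.edges.toFinset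
  have hD : D ⊆ C := fun e he => hsub e (List.mem_toFinset.1 he)
  have hDc : #D = c.length := by
    rw [List.toFinset_card_of_nodup hc.isTrail.edges_nodup, Walk.length_edges]
  by_cases ho : Odd c.length
  · refine ⟨v, c.transfer G hsubG, hc.transfer hsubG, ?_, ?_⟩
    · rwa [Walk.length_transfer]
    · rw [Walk.length_transfer, ← hDc]
      exact Finset.card_le_card hD
  · have h3 := hc.three_le_length
    have hcard : #(C \ D) + #D = #C := Finset.card_sdiff_add_card_eq_card hD
    have hevD : ∀ w, Even #{e ∈ D | w ∈ e} := by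
      intro w
      have := (hc.isTrail.even_countP_edges_iff w).2 (by simp)
      convert this using 1
      rw [List.countP_eq_length_filter,
        ← List.toFinset_card_of_nodup (hc.isTrail.edges_nodup.filter _), List.toFinset_filter]
      simp [D]
    obtain ⟨v', c', h1, h2, h4⟩ := ih #(C \ D) (by omega) (C \ D) rfl
      (fun e he => hG e (Finset.mem_sdiff.1 he).1) (fun w => by
        have a1 := hev w
        have a2 := hevD w
        have : #{e ∈ C \ D | w ∈ e} + #{e ∈ D | w ∈ e} = #{e ∈ C | w ∈ e} := by
          rw [← Finset.card_union_of_disjoint (Finset.disjoint_filter_filter Finset.sdiff_disjoint),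
            ← Finset.filter_union, Finset.sdiff_union_of_subset hD]
        rcases a1 with ⟨a, ha⟩
        rcases a2 with ⟨b, hb⟩
        exact ⟨a - b, by omega⟩) (by
        rw [Nat.not_odd_iff_even] at ho
        rcases ho with ⟨a, ha⟩
        rcases hodd with ⟨b, hb⟩
        exact ⟨b - a, by omega⟩)
    exact ⟨v', c', h1, h2, by omega⟩

end Pool.Agent.P.MP_da739a_co
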