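import Pool.Agent.P.MP_da739a_co.Orient
import Pool.Agent.P.MP_da739a_co.Topo
import Pool.Agent.P.MP_da739a_co.Cyc

/-! Planar graphs whose odd cycles have length at least `4k+3` map to the cycle of length
`2k+1`. -/

open Finset SimpleGraph

namespace Pool.Agent.P.MP_da739a_co

section
variable {V E : Type} [Fintype E] [DecidableEq V] [DecidableEq E]

omit [DecidableEq E] in
lemma bdry_sub (s t : E → V) (a b : E → ℤ) (v : V) :
    bdry s t (a - b) v = bdry s t a v - bdry s t b v := by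
  unfold bdry
  rw [← Finset.sum_sub_distrib]
  refine Finset.sum_congr rfl fun e _ => ?_
  simp only [Pi.sub_apply]
  split_ifs <;> ring

lemma bdry_single (s t : E → V) (e0 : E) (v : V) :
    bdry s t (Pi.single e0 1) v = (if s e0 = v then 1 else 0) - (if t e0 = v then 1 else 0) := by
  unfold bdry
  rw [Finset.sum_eq_single e0]
  · simp
  · intro e _ he
    simp [Pi.single_eq_of_ne he]
  · simp

lemma potential (s t : E → V) (m : ℤ) (x : E → ℤ)
    (hx : ∀ z : E → ℤ, (∀ v, bdry s t z v = 0) → m ∣ ∑ e, x e * z e) :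
    ∃ φ : V → ℤ, ∀ e, m ∣ φ (s e) - φ (t e) - x e := by
  let R : V → V → Prop := fun u v => ∃ z : E → ℤ, ∀ w,
    bdry s t z w = (if u = w then 1 else 0) - (if v = w then 1 else 0)
  have h0 : ∀ w, bdry s t 0 w = 0 := fun w => by simp [bdry]
  have hR : Equivalence R := by
    refine ⟨fun u => ⟨0, fun w => by simp [h0]⟩, ?_, ?_⟩
    · rintro u v ⟨z, hz⟩
      exact ⟨0 - z, fun w => by rw [bdry_sub, hz, h0]; ring⟩
    · rintro u v y ⟨z, hz⟩ ⟨z', hz'⟩
      exact ⟨z - (0 - z'), fun w => by rw [bdry_sub, bdry_sub, hz, hz', h0]; ring⟩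
  let S : Setoid V := ⟨R, hR⟩
  have hrep : ∀ v, R v (Quotient.mk S v).out := fun v => hR.symm (Quotient.mk_out (s := S) v)
  choose z hz using hrep
  refine ⟨fun v => ∑ e, x e * z v e, fun e0 => ?_⟩
  have he : Quotient.mk S (s e0) = Quotient.mk S (t e0) :=
    Quotient.sound ⟨Pi.single e0 1, bdry_single s t e0⟩
  have := hx (z (s e0) - z (t e0) - Pi.single e0 1) fun w => by
    rw [bdry_sub, bdry_sub, hz, hz, bdry_single, he]; ring
  convert this using 1
  simp only [Pi.sub_apply, mul_sub, Finset.sum_sub_distrib]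
  congr 1
  rw [Finset.sum_eq_single e0]
  · simp
  · intro e _ he
    simp [Pi.single_eq_of_ne he]
  · simp

omit [DecidableEq E] in
lemma pairing {F : Type} [Fintype F] [DecidableEq F] (L R : E → F) (x : E → ℤ) (w : F → ℤ) :
    ∑ e, x e * (w (L e) - w (R e)) = ∑ f, w f * bdry L R x f := by
  unfold bdry
  simp only [Finset.mul_sum]
  rw [Finset.sum_comm]
  refine Finset.sum_congr rfl fun e _ => ?_
  simp only [mul_sub, mul_ite, mul_zero, Finset.sum_sub_distrib, Finset.sum_ite_eq,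
    Finset.mem_univ, if_true]
  ring

end

lemma hom_of_pot {V : Type} (G : SimpleGraph V) (n : ℕ) (φ : V → ℤ)
    (h : ∀ u v, G.Adj u v →
      ((n + 2 : ℕ) : ℤ) ∣ φ u - φ v - 1 ∨ ((n + 2 : ℕ) : ℤ) ∣ φ v - φ u - 1) :
    Nonempty (G →g cycleGraph (n + 2)) := by
  refine ⟨⟨fun v => ((φ v : ZMod (n + 2)) : Fin (n + 2)), fun {u v} huv => ?_⟩⟩
  refine cycleGraph_adj.2 ?_
  have key : ∀ a b : ℤ, ((n + 2 : ℕ) : ℤ) ∣ a - b - 1 →
      (a : ZMod (n + 2)) - (b : ZMod (n + 2)) = 1 := by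
    intro a b hab
    have := (ZMod.intCast_zmod_eq_zero_iff_dvd _ (n + 2)).2 hab
    push_cast at this
    exact sub_eq_zero.1 this
  rcases h u v huv with h1 | h1
  · exact Or.inl (key _ _ h1)
  · exact Or.inr (key _ _ h1)

theorem main (k : ℕ) (hk : 1 ≤ k) (V : Type) [Fintype V] (G : SimpleGraph V)
    (hpl : ∃ (f : V → ℝ × ℝ) (γ : V → V → ℝ → ℝ × ℝ),
        Function.Injective f ∧
        (∀ u v, G.Adj u v →
          ContinuousOn (γ u v) (Set.Icc 0 1) ∧ Set.InjOn (γ u v) (Set.Icc 0 1) ∧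
          γ u v 0 = f u ∧ γ u v 1 = f v ∧
          ∀ t ∈ Set.Ioo (0:ℝ) 1, ∀ w, γ u v t ≠ f w) ∧
        (∀ u v u' v', G.Adj u v → G.Adj u' v' → s(u, v) ≠ s(u', v') →
          ∀ t ∈ Set.Ioo (0:ℝ) 1, ∀ t' ∈ Set.Ioo (0:ℝ) 1, γ u v t ≠ γ u' v' t'))
    (hodd : ∀ (v : V) (c : G.Walk v v), c.IsCycle → Odd c.length → 4 * k + 3 ≤ c.length) :
    Nonempty (G →g cycleGraph (2 * k + 1)) := by
  classical
  obtain ⟨p, γ, hp, hγ, hx⟩ := hpl
  let s : G.edgeSet → V := fun e => e.1.out.1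
  let t : G.edgeSet → V := fun e => e.1.out.2
  have hst : ∀ e : G.edgeSet, s(s e, t e) = e.1 := fun e => Quot.out_eq e.1
  have hadj : ∀ e : G.edgeSet, G.Adj (s e) (t e) := fun e => by
    rw [← mem_edgeSet, hst]; exact e.2
  have hne : ∀ e, s e ≠ t e := fun e => (hadj e).ne
  obtain ⟨U, r, hU, hr, hE⟩ := grid_of_drawing s t hne p (fun e => γ (s e) (t e)) hp
    (fun e => (hγ _ _ (hadj e)).1) (fun e => (hγ _ _ (hadj e)).2.1)
    (fun e => (hγ _ _ (hadj e)).2.2.1) (fun e => (hγ _ _ (hadj e)).2.2.2.1)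
    (fun e => (hγ _ _ (hadj e)).2.2.2.2)
    (fun e f hef => hx _ _ _ _ (hadj e) (hadj f) (by
      rw [hst, hst]; exact fun h => hef (Subtype.ext h)))
  obtain ⟨F, L, R, hF1, hF2⟩ := dual_of_grid s t hne (by
    rintro e e' (⟨h1, h2⟩ | ⟨h1, h2⟩)
    · apply Subtype.ext; rw [← hst, ← hst, h1, h2]
    · apply Subtype.ext; rw [← hst, ← hst, h1, h2, Sym2.eq_swap]) U hU r hr hE
  let T : Finset F := univ.image L ∪ univ.image R
  let L' : G.edgeSet → T := fun e => ⟨L e, by simp [T]⟩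
  let R' : G.edgeSet → T := fun e => ⟨R e, by simp [T]⟩
  have hor : HasOr L' R' (2 * k + 1) := by
    refine orient k _ L' R' rfl fun A hA => ?_
    let w : F → ℤ := fun f => if ∃ h : f ∈ T, (⟨f, h⟩ : T) ∈ A then 1 else 0
    have hwL : ∀ e, w (L e) = if L' e ∈ A then 1 else 0 := by
      intro e
      simp only [w]
      congr 1
      exact propext ⟨fun ⟨_, h⟩ => h, fun h => ⟨_, h⟩⟩
    have hwR : ∀ e, w (R e) = if R' e ∈ A then 1 else 0 := by
      intro e
      simp only [w]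
      congr 1
      exact propext ⟨fun ⟨_, h⟩ => h, fun h => ⟨_, h⟩⟩
    let D : Finset G.edgeSet := {e | ¬ (L' e ∈ A ↔ R' e ∈ A)}
    have hD : cz L' R' A = #D := by
      simp only [cz, D, Finset.card_filter]
      push_cast
      refine Finset.sum_congr rfl fun e _ => ?_
      split_ifs <;> simp_all
    let C : Finset (Sym2 V) := D.map (Function.Embedding.subtype _)
    have hC : #C = #D := Finset.card_map _
    have hev : ∀ v, Even #{e ∈ C | v ∈ e} := by
      intro v
      have h1 : #{e ∈ C | v ∈ e} = #{e ∈ D | v ∈ e.1} := by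
        simp only [C]
        rw [Finset.filter_map, Finset.card_map]
        rfl
      have h2 := hF2 w v
      have h3 : Even ((#{e ∈ D | v ∈ e.1} : ℤ) - bdry s t (fun e => w (L e) - w (R e)) v) := by
        simp only [D, Finset.filter_filter, Finset.card_filter, bdry]
        push_cast
        rw [← Finset.sum_sub_distrib]
        refine Finset.even_sum _ fun e _ => ?_
        have hv : v ∈ e.1 ↔ s e = v ∨ t e = v := by
          rw [← hst, Sym2.mem_iff, eq_comm, @eq_comm _ v]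
        have hn := hne e
        rw [hwL, hwR]
        simp only [hv]
        by_cases a1 : L' e ∈ A <;> by_cases a2 : R' e ∈ A <;> by_cases a3 : s e = v <;>
          by_cases a4 : t e = v <;> simp [a1, a2, a3, a4] <;> exact absurd (a3.trans a4.symm) hn
      rw [h2, sub_zero] at h3
      rw [h1]
      exact_mod_cast h3
    have hoC : Odd #C := by
      rw [hD] at hA
      rw [hC]
      exact_mod_cast hA
    obtain ⟨v, c, hc, ho, hl⟩ := odd_cycle G _ C rfl (by
      intro e he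
      obtain ⟨e', _, rfl⟩ := Finset.mem_map.1 he
      exact e'.2) hev hoC
    have := hodd v c hc ho
    rw [hD, ← hC]
    omega
  obtain ⟨x, hx1, hx2⟩ := hor
  obtain ⟨φ, hφ⟩ := potential s t ((2 * k + 1 : ℕ) : ℤ) x fun z hz => by
    obtain ⟨w, hw⟩ := hF1 z hz
    have := pairing L' R' x (fun f => w f.1)
    simp only [hw]
    rw [this]
    exact Finset.dvd_sum fun f _ => Dvd.dvd.mul_left (hx2 f) _
  obtain ⟨n, hn⟩ : ∃ n, 2 * k + 1 = n + 2 := ⟨2 * k - 1, by omega⟩
  rw [hn] at hφ ⊢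
  refine hom_of_pot G n φ fun u v huv => ?_
  have h1 := hφ ⟨s(u, v), huv⟩
  have h2 := hst ⟨s(u, v), huv⟩
  have h3 := hx1 ⟨s(u, v), huv⟩
  rcases Sym2.eq_iff.1 h2 with ⟨a, b⟩ | ⟨a, b⟩ <;> rw [a, b] at h1 <;>
    rcases h3 with h3 | h3 <;> rw [h3] at h1
  · exact Or.inl h1
  · exact Or.inr (by have := (dvd_neg.2 h1); rwa [show -(φ u - φ v - -1) = φ v - φ u - 1 by ring] at this)
  · exact Or.inr h1
  · exact Or.inl (by have := (dvd_neg.2 h1); rwa [show -(φ v - φ u - -1) = φ u - φ v - 1 by ring] at this)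

end Pool.Agent.P.MP_da739a_co
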