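import Pool.Agent.P.MP_da739a_co.Hoffman

/-! Graphs with a minor model in the square grid have an abstract dual. -/

open Finset

namespace Pool.Agent.P.MP_da739a_co

/-- grid edges: a starting point and a direction -/
abbrev GE := (ℤ × ℤ) × Bool

/-- end point of a grid edge -/
def gt (h : GE) : ℤ × ℤ := if h.2 then (h.1.1, h.1.2 + 1) else (h.1.1 + 1, h.1.2)

/-- the grid edge `h` joins `a` and `b` -/
def Joins (h : GE) (a b : ℤ × ℤ) : Prop := (h.1 = a ∧ gt h = b) ∨ (h.1 = b ∧ gt h = a)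

/-- connected inside `U` -/
def RT (U : Set (ℤ × ℤ)) : ℤ × ℤ → ℤ × ℤ → Prop :=
  Relation.ReflTransGen fun a b => a ∈ U ∧ b ∈ U ∧ ∃ h, Joins h a b

lemma RT.symm {U : Set (ℤ × ℤ)} {a b : ℤ × ℤ} (h : RT U a b) : RT U b a := by
  induction h with
  | refl => exact Relation.ReflTransGen.refl
  | tail _ hcd ih =>
    obtain ⟨h1, h2, g, h3⟩ := hcd
    exact Relation.ReflTransGen.head ⟨h2, h1, g, Or.symm h3⟩ ih

lemma RT.mono {U U' : Set (ℤ × ℤ)} (hU : U ⊆ U') {a b : ℤ × ℤ} (h : RT U a b) : RT U' a b := by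
  induction h with
  | refl => exact Relation.ReflTransGen.refl
  | tail _ hcd ih => exact Relation.ReflTransGen.tail ih ⟨hU hcd.1, hU hcd.2.1, hcd.2.2⟩

lemma RT.trans' {U : Set (ℤ × ℤ)} {a b c : ℤ × ℤ} (h : RT U a b) (h' : RT U b c) : RT U a c :=
  Relation.ReflTransGen.trans h h'

lemma rt_near {U : Set (ℤ × ℤ)} {a b : ℤ × ℤ} (ha : a ∈ U) (hb : b ∈ U)
    (h : (|b.1 - a.1| ≤ 1 ∧ a.2 = b.2) ∨ (a.1 = b.1 ∧ |b.2 - a.2| ≤ 1)) : RT U a b := by
  obtain ⟨a1, a2⟩ := a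
  obtain ⟨b1, b2⟩ := b
  simp only [abs_le] at h
  by_cases h0 : a1 = b1 ∧ a2 = b2
  · obtain ⟨rfl, rfl⟩ := h0
    exact Relation.ReflTransGen.refl
  refine Relation.ReflTransGen.single ⟨ha, hb, ?_⟩
  have : (b1 = a1 + 1 ∧ b2 = a2) ∨ (a1 = b1 + 1 ∧ b2 = a2) ∨ (b1 = a1 ∧ b2 = a2 + 1) ∨
      (b1 = a1 ∧ a2 = b2 + 1) := by omega
  rcases this with ⟨rfl, rfl⟩ | ⟨rfl, rfl⟩ | ⟨rfl, rfl⟩ | ⟨rfl, rfl⟩
  · exact ⟨(_, false), Or.inl ⟨rfl, rfl⟩⟩
  · exact ⟨(_, false), Or.inr ⟨rfl, rfl⟩⟩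
  · exact ⟨(_, true), Or.inl ⟨rfl, rfl⟩⟩
  · exact ⟨(_, true), Or.inr ⟨rfl, rfl⟩⟩

lemma first_entry {U B : Set (ℤ × ℤ)} {a b : ℤ × ℤ} (h : RT U a b) (ha : a ∉ B) (haU : a ∈ U)
    (hb : b ∈ B) : ∃ x y, RT (U \ B) a x ∧ x ∈ U \ B ∧ y ∈ B ∧ ∃ g, Joins g x y := by
  have : (b ∈ U \ B ∧ RT (U \ B) a b) ∨
      ∃ x y, RT (U \ B) a x ∧ x ∈ U \ B ∧ y ∈ B ∧ ∃ g, Joins g x y := by
    clear hb
    induction h with
    | refl => exact Or.inl ⟨⟨haU, ha⟩, Relation.ReflTransGen.refl⟩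
    | @tail c d _ hcd ih =>
      rcases ih with ⟨h1, h2⟩ | h1
      · by_cases hd : d ∈ B
        · exact Or.inr ⟨c, d, h2, h1, hd, hcd.2.2⟩
        · exact Or.inl ⟨⟨hcd.2.1, hd⟩, h2.tail ⟨h1, ⟨hcd.2.1, hd⟩, hcd.2.2⟩⟩
      · exact Or.inr h1
  rcases this with h1 | h1
  exacts [absurd hb h1.1.2, h1]

/-- coboundary of a function on grid points -/
def cob (φ : ℤ × ℤ → ℤ) : GE → ℤ := fun h => φ (gt h) - φ h.1

lemma chain_of_rt {U : Set (ℤ × ℤ)} {a b : ℤ × ℤ} (ha : a ∈ U) (h : RT U a b) :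
    ∃ (T : Finset (ℤ × ℤ)) (C : (GE → ℤ) →ₗ[ℤ] ℤ), (T : Set (ℤ × ℤ)) ⊆ U ∧ b ∈ T ∧
      (∀ φ, C (cob φ) = φ b - φ a) ∧
      ∀ f, (∀ g : GE, g.1 ∈ T → gt g ∈ T → f g = 0) → C f = 0 := by
  induction h with
  | refl => exact ⟨{a}, 0, by simpa using ha, by simp, by simp, by simp⟩
  | @tail c d _ hcd ih =>
    obtain ⟨T, C, h1, h2, h3, h4⟩ := ih
    obtain ⟨-, hd, g, hg⟩ := hcd
    have hT : ((insert d T : Finset (ℤ × ℤ)) : Set (ℤ × ℤ)) ⊆ U := by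
      rw [coe_insert]
      exact Set.insert_subset hd h1
    have hC : ∀ f : GE → ℤ, (∀ g : GE, g.1 ∈ insert d T → gt g ∈ insert d T → f g = 0) →
        C f = 0 ∧ f g = 0 := by
      intro f hf
      refine ⟨h4 f fun g a b => hf g (mem_insert_of_mem a) (mem_insert_of_mem b), hf g ?_ ?_⟩ <;>
        rcases hg with ⟨a1, a2⟩ | ⟨a1, a2⟩ <;> simp [a1, a2, h2]
    rcases hg with ⟨a1, a2⟩ | ⟨a1, a2⟩
    · refine ⟨insert d T, C + LinearMap.proj g, hT, mem_insert_self _ _, fun φ => ?_,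
        fun f hf => ?_⟩
      · simp [h3, cob, a1, a2]
      · simp [(hC f hf).1, (hC f hf).2]
    · refine ⟨insert d T, C - LinearMap.proj g, hT, mem_insert_self _ _, fun φ => ?_,
        fun f hf => ?_⟩
      · simp [h3, cob, a1, a2]
      · simp [(hC f hf).1, (hC f hf).2]

/-- crossings of the ray going left from the cell `q` -/
def ray (q : ℤ × ℤ) : GE → ℤ := fun h => if h.2 = true ∧ h.1.2 = q.2 ∧ h.1.1 ≤ q.1 then 1 else 0

/-- the two cells next to a grid edge -/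
def cp (h : GE) : ℤ × ℤ := if h.2 then h.1 else (h.1.1, h.1.2 - 1)

/-- the two cells next to a grid edge -/
def cm (h : GE) : ℤ × ℤ := if h.2 then (h.1.1 - 1, h.1.2) else h.1

lemma ray_diff (h : GE) : ∃ φ, ray (cp h) - ray (cm h) = Pi.single h 1 + cob φ := by
  obtain ⟨⟨i, j⟩, b⟩ := h
  cases b
  · refine ⟨fun p => if p.2 = j ∧ p.1 ≤ i then 1 else 0, ?_⟩
    ext ⟨⟨i', j'⟩, b'⟩
    cases b' <;> simp [ray, cp, cm, cob, gt, Pi.single_apply] <;> split_ifs <;> omega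
  · refine ⟨fun _ => 0, ?_⟩
    ext ⟨⟨i', j'⟩, b'⟩
    cases b' <;> simp [ray, cp, cm, cob, Pi.single_apply]
    split_ifs <;> omega

/-- evaluation -/
def ev (h : GE) : (GE → ℤ) →ₗ[ℤ] ℤ := LinearMap.proj h

/-- total divergence on a finite set of grid points -/
def dv (T : Finset (ℤ × ℤ)) : (GE → ℤ) →ₗ[ℤ] ℤ :=
  ∑ p ∈ T, (ev (p, false) + ev (p, true) - ev ((p.1 - 1, p.2), false) - ev ((p.1, p.2 - 1), true))

lemma dv_apply (T : Finset (ℤ × ℤ)) (f : GE → ℤ) : dv T f = ∑ p ∈ T, (f (p, false) + f (p, true) -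
    f ((p.1 - 1, p.2), false) - f ((p.1, p.2 - 1), true)) := by
  simp [dv, ev]

lemma dv_cells (T : Finset (ℤ × ℤ)) (W : ℤ × ℤ → ℤ) :
    dv T (fun h => W (cp h) - W (cm h)) = 0 := by
  rw [dv_apply]
  exact Finset.sum_eq_zero fun p _ => by simp [cp, cm]

lemma dv_zero (T : Finset (ℤ × ℤ)) (f : GE → ℤ) (hf : ∀ h, f h ≠ 0 → (h.1 ∈ T ↔ gt h ∈ T)) :
    dv T f = 0 := by
  rw [dv_apply]
  have h1 : ∑ p ∈ T, f (p, false) = ∑ p ∈ T, f ((p.1 - 1, p.2), false) := by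
    refine Finset.sum_bij_ne_zero (fun p _ _ => (p.1 + 1, p.2)) (fun p hp h0 => ?_)
      (fun p _ _ q _ _ h => ?_) (fun q hq h0 => ⟨(q.1 - 1, q.2), ?_, h0, by simp⟩) (by simp)
    · simpa [gt] using (hf _ h0).1 hp
    · simp only [Prod.mk.injEq, add_left_inj] at h
      exact Prod.ext h.1 h.2
    · exact (hf _ h0).2 (by simpa [gt] using hq)
  have h2 : ∑ p ∈ T, f (p, true) = ∑ p ∈ T, f ((p.1, p.2 - 1), true) := by
    refine Finset.sum_bij_ne_zero (fun p _ _ => (p.1, p.2 + 1)) (fun p hp h0 => ?_)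
      (fun p _ _ q _ _ h => ?_) (fun q hq h0 => ⟨(q.1, q.2 - 1), ?_, h0, by simp⟩) (by simp)
    · simpa [gt] using (hf _ h0).1 hp
    · simp only [Prod.mk.injEq, add_left_inj] at h
      exact Prod.ext h.1 h.2
    · exact (hf _ h0).2 (by simpa [gt] using hq)
  simp only [Finset.sum_sub_distrib, Finset.sum_add_distrib]
  omega

lemma dv_single (T : Finset (ℤ × ℤ)) (h : GE) :
    dv T (Pi.single h 1) = (if h.1 ∈ T then 1 else 0) - (if gt h ∈ T then 1 else 0) := by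
  rw [dv_apply, ← Finset.sum_ite_eq T h.1 (fun _ => (1 : ℤ)),
    ← Finset.sum_ite_eq T (gt h) (fun _ => (1 : ℤ)), ← Finset.sum_sub_distrib]
  refine Finset.sum_congr rfl fun p _ => ?_
  obtain ⟨⟨i, j⟩, b⟩ := h
  obtain ⟨i', j'⟩ := p
  cases b <;> simp [gt, Pi.single_apply] <;> split_ifs <;> omega

variable {V E : Type} [Fintype V] [Fintype E] [DecidableEq V]

theorem dual_of_grid (s t : E → V) (hst : ∀ e, s e ≠ t e)
    (hsimple : ∀ e e', (s e = s e' ∧ t e = t e') ∨ (s e = t e' ∧ t e = s e') → e = e')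
    (U : V → Set (ℤ × ℤ)) (hU : ∀ u v a, a ∈ U u → a ∈ U v → u = v)
    (r : V → ℤ × ℤ) (hr : ∀ v, r v ∈ U v)
    (hE : ∀ e, ∃ x y g, RT (U (s e)) (r (s e)) x ∧ RT (U (t e)) (r (t e)) y ∧ Joins g x y) :
    ∃ (F : Type) (L R : E → F),
      (∀ z : E → ℤ, (∀ v, bdry s t z v = 0) → ∃ w : F → ℤ, ∀ e, z e = w (L e) - w (R e)) ∧
      ∀ (w : F → ℤ) v, bdry s t (fun e => w (L e) - w (R e)) v = 0 := by
  classical
  choose x y g hx hy hg using hE
  choose T1 C1 hT1 hx1 hC1 hS1 using fun e => chain_of_rt (hr (s e)) (hx e)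
  choose T2 C2 hT2 hy2 hC2 hS2 using fun e => chain_of_rt (hr (t e)) (hy e)
  have hxU : ∀ e, x e ∈ U (s e) := fun e => hT1 e (hx1 e)
  have hyU : ∀ e, y e ∈ U (t e) := fun e => hT2 e (hy2 e)
  have hxy : ∀ e, x e ≠ y e := fun e h => hst e (hU _ _ _ (hxU e) (h ▸ hyU e))
  let σ : E → ℤ := fun e => if (g e).1 = x e then 1 else -1
  have hσ : ∀ e, ((g e).1 = x e ∧ gt (g e) = y e ∧ σ e = 1) ∨
      ((g e).1 = y e ∧ gt (g e) = x e ∧ σ e = -1) := by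
    intro e
    rcases hg e with ⟨a1, a2⟩ | ⟨a1, a2⟩
    · exact Or.inl ⟨a1, a2, by simp [σ, a1]⟩
    · exact Or.inr ⟨a1, a2, by simp [σ, a1, (hxy e).symm]⟩
  have hginj : ∀ e e', g e = g e' → e = e' := by
    intro e e' h
    apply hsimple
    have k1 := hxU e
    have k2 := hyU e
    rcases hσ e with ⟨a1, a2, -⟩ | ⟨a1, a2, -⟩ <;> rcases hσ e' with ⟨b1, b2, -⟩ | ⟨b1, b2, -⟩ <;>
      rw [h] at a1 a2
    · rw [← a1, b1] at k1; rw [← a2, b2] at k2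
      exact Or.inl ⟨hU _ _ _ k1 (hxU _), hU _ _ _ k2 (hyU _)⟩
    · rw [← a1, b1] at k1; rw [← a2, b2] at k2
      exact Or.inr ⟨hU _ _ _ k1 (hyU _), hU _ _ _ k2 (hxU _)⟩
    · rw [← a2, b2] at k1; rw [← a1, b1] at k2
      exact Or.inr ⟨hU _ _ _ k1 (hyU _), hU _ _ _ k2 (hxU _)⟩
    · rw [← a2, b2] at k1; rw [← a1, b1] at k2
      exact Or.inl ⟨hU _ _ _ k1 (hxU _), hU _ _ _ k2 (hyU _)⟩
  let T : V → Finset (ℤ × ℤ) := fun v =>
    (univ.filter fun e => s e = v).biUnion T1 ∪ (univ.filter fun e => t e = v).biUnion T2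
  have hTU : ∀ v a, a ∈ T v → a ∈ U v := by
    intro v a ha
    simp only [T, mem_union, mem_biUnion, mem_filter, mem_univ, true_and] at ha
    rcases ha with ⟨e, rfl, h⟩ | ⟨e, rfl, h⟩
    exacts [hT1 e h, hT2 e h]
  have hT1T : ∀ e a, a ∈ T1 e → a ∈ T (s e) := fun e a h =>
    mem_union_left _ (mem_biUnion.2 ⟨e, by simp, h⟩)
  have hT2T : ∀ e a, a ∈ T2 e → a ∈ T (t e) := fun e a h =>
    mem_union_right _ (mem_biUnion.2 ⟨e, by simp, h⟩)
  let Φ : E → (GE → ℤ) →ₗ[ℤ] ℤ := fun e => C1 e + σ e • LinearMap.proj (g e) - C2 e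
  have hΦcob : ∀ e φ, Φ e (cob φ) = φ (r (t e)) - φ (r (s e)) := by
    intro e φ
    simp only [Φ, LinearMap.sub_apply, LinearMap.add_apply, LinearMap.smul_apply,
      LinearMap.proj_apply, hC1, hC2, cob, smul_eq_mul]
    rcases hσ e with ⟨a1, a2, a3⟩ | ⟨a1, a2, a3⟩ <;> rw [a1, a2, a3] <;> ring
  have hΦs : ∀ e h, (¬ ∃ u, h.1 ∈ T u ∧ gt h ∈ T u) →
      Φ e (Pi.single h 1) = if g e = h then σ e else 0 := by
    intro e h hh
    have k1 : C1 e (Pi.single h 1) = 0 := hS1 e _ fun k a b => by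
      rw [Pi.single_eq_of_ne]
      rintro rfl
      exact hh ⟨_, hT1T e _ a, hT1T e _ b⟩
    have k2 : C2 e (Pi.single h 1) = 0 := hS2 e _ fun k a b => by
      rw [Pi.single_eq_of_ne]
      rintro rfl
      exact hh ⟨_, hT2T e _ a, hT2T e _ b⟩
    simp [Φ, k1, k2, Pi.single_apply]
  have hgout : ∀ e, ¬ ∃ u, (g e).1 ∈ T u ∧ gt (g e) ∈ T u := by
    rintro e ⟨u, h1, h2⟩
    have k1 := hTU _ _ h1
    have k2 := hTU _ _ h2
    rcases hσ e with ⟨a1, a2, -⟩ | ⟨a1, a2, -⟩ <;> rw [a1] at k1 <;> rw [a2] at k2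
    · exact hst e ((hU _ _ _ (hxU e) k1).trans (hU _ _ _ k2 (hyU e)))
    · exact hst e ((hU _ _ _ (hxU e) k2).trans (hU _ _ _ k1 (hyU e)))
  let ω : ℤ × ℤ → {z : E → ℤ // ∀ v, bdry s t z v = 0} → ℤ := fun q z => ∑ e, z.1 e * Φ e (ray q)
  have hω : ∀ h z, ω (cp h) z - ω (cm h) z = ∑ e, z.1 e * Φ e (Pi.single h 1) := by
    intro h z
    obtain ⟨φ, hφ⟩ := ray_diff h
    have k1 : ∑ e, z.1 e * Φ e (cob φ) = 0 := by
      have : ∑ v, φ (r v) * bdry s t z.1 v = 0 := Finset.sum_eq_zero fun v _ => by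
        rw [z.2 v, mul_zero]
      unfold bdry at this
      simp only [Finset.mul_sum] at this
      rw [Finset.sum_comm] at this
      rw [← neg_eq_zero, ← Finset.sum_neg_distrib]
      refine Eq.trans (Finset.sum_congr rfl fun e _ => ?_) this
      simp only [hΦcob, mul_sub, mul_ite, mul_zero, Finset.sum_sub_distrib, Finset.sum_ite_eq,
        mem_univ, if_true]
      ring
    simp only [ω]
    have k2 : ∑ e, (z.1 e * Φ e (ray (cp h)) - z.1 e * Φ e (ray (cm h))) =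
        ∑ e, (z.1 e * Φ e (Pi.single h 1) + z.1 e * Φ e (cob φ)) :=
      Finset.sum_congr rfl fun e _ => by rw [← mul_sub, ← map_sub, hφ, map_add, mul_add]
    rw [← Finset.sum_sub_distrib, k2, Finset.sum_add_distrib, k1, add_zero]
  refine ⟨{z : E → ℤ // ∀ v, bdry s t z v = 0} → ℤ,
    fun e => if σ e = 1 then ω (cp (g e)) else ω (cm (g e)),
    fun e => if σ e = 1 then ω (cm (g e)) else ω (cp (g e)), fun z hz => ?_, fun w v => ?_⟩
  · refine ⟨fun φ => φ ⟨z, hz⟩, fun e => ?_⟩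
    have k := hω (g e) ⟨z, hz⟩
    rw [Finset.sum_eq_single e (fun e' _ h => by
      rw [hΦs _ _ (hgout e), if_neg (fun h' => h (hginj _ _ h')), mul_zero]) (by simp),
      hΦs _ _ (hgout e), if_pos rfl] at k
    rcases hσ e with ⟨-, -, a3⟩ | ⟨-, -, a3⟩ <;> simp only [a3] at k ⊢ <;> norm_num <;> omega
  · let a : GE → ℤ := fun h => w (ω (cp h)) - w (ω (cm h))
    have k1 : dv (T v) a = 0 := dv_cells (T v) fun q => w (ω q)
    have k2 : dv (T v) (a - ∑ e, a (g e) • Pi.single (g e) 1) = 0 := by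
      refine dv_zero _ _ fun h h0 => ?_
      by_cases hin : ∃ u, h.1 ∈ T u ∧ gt h ∈ T u
      · obtain ⟨u, h1, h2⟩ := hin
        exact ⟨fun h3 => hU _ _ _ (hTU _ _ h1) (hTU _ _ h3) ▸ h2,
          fun h3 => hU _ _ _ (hTU _ _ h2) (hTU _ _ h3) ▸ h1⟩
      exfalso
      apply h0
      simp only [Pi.sub_apply, Finset.sum_apply, Pi.smul_apply, smul_eq_mul, Pi.single_apply]
      by_cases hge : ∃ e, g e = h
      · obtain ⟨e, rfl⟩ := hge
        rw [Finset.sum_eq_single e (fun e' _ h => by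
          rw [if_neg (fun h' => h (hginj _ _ h').symm), mul_zero]) (by simp)]
        simp
      · have : ω (cp h) = ω (cm h) := by
          ext z
          rw [← sub_eq_zero, hω]
          exact Finset.sum_eq_zero fun e _ => by
            rw [hΦs _ _ hin, if_neg (fun h' => hge ⟨e, h'⟩), mul_zero]
        rw [Finset.sum_eq_zero fun e _ => by rw [if_neg (fun h' => hge ⟨e, h'.symm⟩), mul_zero]]
        simp [a, this]
    rw [map_sub, k1, map_sum, zero_sub, neg_eq_zero] at k2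
    unfold bdry
    refine Eq.trans (Finset.sum_congr rfl fun e _ => ?_) k2
    rw [map_smul, dv_single, smul_eq_mul]
    have m1 : x e ∈ T v ↔ s e = v :=
      ⟨fun h => hU _ _ _ (hxU e) (hTU _ _ h), fun h => h ▸ hT1T e _ (hx1 e)⟩
    have m2 : y e ∈ T v ↔ t e = v :=
      ⟨fun h => hU _ _ _ (hyU e) (hTU _ _ h), fun h => h ▸ hT2T e _ (hy2 e)⟩
    rcases hσ e with ⟨a1, a2, a3⟩ | ⟨a1, a2, a3⟩
    · beta_reduce
      rw [a1, a2, if_pos a3, if_pos a3]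
      simp only [m1, m2, a]
      by_cases c1 : s e = v <;> by_cases c2 : t e = v <;> simp [c1, c2]
    · have a4 : ¬ σ e = 1 := by omega
      beta_reduce
      rw [a1, a2, if_neg a4, if_neg a4]
      simp only [m1, m2, a]
      by_cases c1 : s e = v <;> by_cases c2 : t e = v <;> simp [c1, c2]

end Pool.Agent.P.MP_da739a_co
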