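import Pool.Agent.P.MP_da739a_co.Cover

/-! The covering theorem for a whole vector configuration, by contraction of densest subsets. -/

open Finset Module

namespace Pool.Agent.P.MP_da739a_co.Dens

lemma finrank_map_mkQ {U : Type} [AddCommGroup U] [Module ℝ U] (W S : Submodule ℝ U)
    [FiniteDimensional ℝ S] (h : W ≤ S) :
    finrank ℝ (S.map W.mkQ) + finrank ℝ W = finrank ℝ S := by
  have h1 := LinearMap.finrank_range_add_finrank_ker (W.mkQ.domRestrict S)
  rw [LinearMap.range_domRestrict, LinearMap.ker_domRestrict, Submodule.ker_mkQ] at h1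
  rw [← h1, (Submodule.comapSubtypeEquivOfLe h).finrank_eq]

lemma densest {U E : Type} [AddCommGroup U] [Module ℝ U] [DecidableEq E] (χ : E → U) (m : ℕ)
    (D : Finset E) (hlt : m * finrank ℝ (Submodule.span ℝ (χ '' (D : Set E))) < D.card) :
    ∃ F0 ⊆ D, F0.Nonempty ∧
      m * finrank ℝ (Submodule.span ℝ (χ '' (F0 : Set E))) < F0.card ∧
      ∀ F ⊆ F0, finrank ℝ (Submodule.span ℝ (χ '' (F0 : Set E))) * F.card ≤
        F0.card * finrank ℝ (Submodule.span ℝ (χ '' (F : Set E))) := by
  set r : Finset E → ℕ := fun F => finrank ℝ (Submodule.span ℝ (χ '' (F : Set E))) with hr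
  have hpos : ∀ F : Finset E, F.Nonempty → (0 : ℝ) < F.card := fun F hF => by
    exact_mod_cast hF.card_pos
  have hDne : D.Nonempty := Finset.card_pos.1 (by omega)
  obtain ⟨F0, hF0, hmin⟩ := Finset.exists_min_image (D.powerset.filter fun F => F.Nonempty)
    (fun F => (r F : ℝ) / F.card) ⟨D, by simp [hDne]⟩
  simp only [mem_filter, mem_powerset] at hF0 hmin
  refine ⟨F0, hF0.1, hF0.2, ?_, fun F hF => ?_⟩
  · have h1 := hmin D ⟨subset_rfl, hDne⟩
    rw [div_le_div_iff₀ (hpos F0 hF0.2) (hpos D hDne)] at h1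
    have h1' : r F0 * D.card ≤ r D * F0.card := by exact_mod_cast h1
    have h2 : m * r D < D.card := hlt
    have h3 : 0 < F0.card := hF0.2.card_pos
    show m * r F0 < F0.card
    by_contra hc
    have hc' : F0.card ≤ m * r F0 := not_lt.1 hc
    have h4 : F0.card * D.card ≤ m * r F0 * D.card := Nat.mul_le_mul_right _ hc'
    have h5 : m * r F0 * D.card ≤ m * r D * F0.card := by
      rw [mul_assoc, mul_assoc]; exact Nat.mul_le_mul_left _ h1'
    have h6 : m * r D * F0.card < D.card * F0.card := Nat.mul_lt_mul_of_pos_right h2 h3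
    rw [mul_comm D.card] at h6
    omega
  · rcases F.eq_empty_or_nonempty with rfl | hne
    · simp
    · have h1 := hmin F ⟨hF.trans hF0.1, hne⟩
      rw [div_le_div_iff₀ (hpos F0 hF0.2) (hpos F hne), mul_comm (r F : ℝ)] at h1
      exact_mod_cast h1

theorem coverAll {E : Type} [DecidableEq E] (m : ℕ) (hm : 0 < m) (n : ℕ) :
    ∀ (U : Type) [AddCommGroup U] [Module ℝ U] (χ : E → U) (D : Finset E), D.card = n →
      (∀ F ⊆ D, F ≠ D → m * finrank ℝ (Submodule.span ℝ (χ '' (D : Set E))) + F.card <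
        m * finrank ℝ (Submodule.span ℝ (χ '' (F : Set E))) + D.card) →
      ∀ p ∈ Submodule.span ℝ (χ '' (D : Set E)),
        ∃ (y : E → ℤ) (f : E → ℝ), (∀ e, |f e| ≤ 1) ∧
          p + ∑ e ∈ D, (2 * m * (y e : ℝ)) • χ e = ∑ e ∈ D, f e • χ e := by
  induction n using Nat.strong_induction_on with
  | _ n ih =>
  intro U _ _ χ D hn hD p hp
  rcases D.eq_empty_or_nonempty with rfl | hne
  · refine ⟨0, 0, by simp, ?_⟩
    simpa using hp
  have h0 := hD ∅ (empty_subset _) hne.ne_empty.symm
  have hbot : Submodule.span ℝ (χ '' ((∅ : Finset E) : Set E)) = ⊥ := by simp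
  rw [hbot, finrank_bot, card_empty, mul_zero, add_zero, zero_add] at h0
  obtain ⟨F0, hF0, hF0ne, hlt, hr⟩ := densest χ m D h0
  set W := Submodule.span ℝ (χ '' (F0 : Set E)) with hW
  have hrank : ∀ F : Finset E,
      finrank ℝ (Submodule.span ℝ ((fun e => W.mkQ (χ e)) '' (F : Set E))) + finrank ℝ W =
        finrank ℝ (Submodule.span ℝ (χ '' ((F ∪ F0 : Finset E) : Set E))) := by
    intro F
    have : FiniteDimensional ℝ (Submodule.span ℝ (χ '' ((F ∪ F0 : Finset E) : Set E))) :=
      FiniteDimensional.span_of_finite ℝ ((F ∪ F0).finite_toSet.image χ)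
    have hle : W ≤ Submodule.span ℝ (χ '' ((F ∪ F0 : Finset E) : Set E)) :=
      Submodule.span_mono (Set.image_mono (by simp))
    have hmap : (Submodule.span ℝ (χ '' ((F ∪ F0 : Finset E) : Set E))).map W.mkQ =
        Submodule.span ℝ ((fun e => W.mkQ (χ e)) '' (F : Set E)) := by
      rw [coe_union, Set.image_union, Submodule.span_union, Submodule.map_sup, ← hW,
        Submodule.mkQ_map_self, sup_bot_eq, Submodule.map_span, Set.image_image]
    rw [← finrank_map_mkQ W _ hle, hmap]
  have hcard : (D \ F0).card + F0.card = D.card := card_sdiff_add_card_eq_card hF0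
  have hpos := hF0ne.card_pos
  have hun : D \ F0 ∪ F0 = D := sdiff_union_of_subset hF0
  obtain ⟨y, f, hf, heq⟩ := ih (D \ F0).card (by omega) (U ⧸ W) (fun e => W.mkQ (χ e)) (D \ F0)
    rfl (fun F hF hne' => by
      have hdis : Disjoint F F0 := disjoint_sdiff_self_left.mono_left hF
      have h1 := hD (F ∪ F0) (union_subset (hF.trans sdiff_subset) hF0) (fun h => hne' (by
        rw [← h, union_sdiff_cancel_right hdis]))
      have h2 := hrank F
      have h3 := hrank (D \ F0)
      rw [hun] at h3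
      rw [card_union_of_disjoint hdis, ← h2, ← h3, mul_add, mul_add] at h1
      omega) (W.mkQ p) (by
      have h1 : W.mkQ p ∈ (Submodule.span ℝ (χ '' (D : Set E))).map W.mkQ :=
        Submodule.mem_map_of_mem hp
      rw [← hun, coe_union, Set.image_union, Submodule.span_union, Submodule.map_sup, ← hW,
        Submodule.mkQ_map_self, sup_bot_eq, Submodule.map_span, Set.image_image] at h1
      exact h1)
  have hp0 : p + ∑ e ∈ D \ F0, (2 * m * (y e : ℝ)) • χ e - ∑ e ∈ D \ F0, f e • χ e ∈ W := by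
    rw [← Submodule.Quotient.mk_eq_zero, ← Submodule.mkQ_apply]
    simp only [map_sub, map_add, map_sum, map_smul]
    rw [heq, sub_self]
  obtain ⟨y0, f0, hf0, heq0⟩ := cover χ F0 m hm hlt hr _ hp0
  refine ⟨fun e => if e ∈ F0 then y0 e else y e, fun e => if e ∈ F0 then f0 e else f e,
    fun e => ?_, ?_⟩
  · by_cases h : e ∈ F0
    · simpa [h] using hf0 e
    · simpa [h] using hf e
  · rw [← sum_sdiff hF0, ← sum_sdiff hF0]
    have a1 : ∑ e ∈ D \ F0, (2 * m * ((if e ∈ F0 then y0 e else y e : ℤ) : ℝ)) • χ e =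
        ∑ e ∈ D \ F0, (2 * m * (y e : ℝ)) • χ e :=
      sum_congr rfl fun e he => by rw [if_neg (mem_sdiff.1 he).2]
    have a2 : ∑ e ∈ F0, (2 * m * ((if e ∈ F0 then y0 e else y e : ℤ) : ℝ)) • χ e =
        ∑ e ∈ F0, (2 * m * (y0 e : ℝ)) • χ e :=
      sum_congr rfl fun e he => by rw [if_pos he]
    have a3 : ∑ e ∈ D \ F0, (if e ∈ F0 then f0 e else f e) • χ e = ∑ e ∈ D \ F0, f e • χ e :=
      sum_congr rfl fun e he => by rw [if_neg (mem_sdiff.1 he).2]
    have a4 : ∑ e ∈ F0, (if e ∈ F0 then f0 e else f e) • χ e = ∑ e ∈ F0, f0 e • χ e :=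
      sum_congr rfl fun e he => by rw [if_pos he]
    rw [a1, a2, a3, a4, ← heq0]
    abel

/-- The version with a weak inequality, at the price of an error `1 / N`. -/
theorem coverWeak {U E : Type} [AddCommGroup U] [Module ℝ U] [Fintype E] [DecidableEq E]
    (χ : E → U) (m N : ℕ) (hm : 0 < m) (hN : 0 < N)
    (h : ∀ F : Finset E, m * finrank ℝ (Submodule.span ℝ (Set.range χ)) + F.card ≤
        m * finrank ℝ (Submodule.span ℝ (χ '' (F : Set E))) + Fintype.card E)
    (p : U) (hp : p ∈ Submodule.span ℝ (Set.range χ)) :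
    ∃ (y : E → ℤ) (f : E → ℝ), (∀ e, |f e| ≤ N + 1) ∧
      p + ∑ e, (2 * m * N * (y e : ℝ)) • χ e = ∑ e, f e • χ e := by
  have himg : (fun x : E × Fin (N + 1) => χ x.1) '' ((univ : Finset (E × Fin (N + 1))) : Set _) =
      Set.range χ := by
    ext u
    constructor
    · rintro ⟨x, -, rfl⟩
      exact ⟨x.1, rfl⟩
    · rintro ⟨e, rfl⟩
      exact ⟨(e, 0), by simp, rfl⟩
  obtain ⟨y, f, hf, heq⟩ := coverAll (E := E × Fin (N + 1)) (m * N) (Nat.mul_pos hm hN) _ U
    (fun x => χ x.1) univ rfl (fun F _ hne => by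
      have h1 : (fun x : E × Fin (N + 1) => χ x.1) '' (F : Set _) =
          χ '' ((F.image Prod.fst : Finset E) : Set E) := by
        rw [coe_image, Set.image_image]
      have h2 := h (F.image Prod.fst)
      have h3 : F.card ≤ (F.image Prod.fst).card * (N + 1) := by
        have : F ⊆ (F.image Prod.fst) ×ˢ (univ : Finset (Fin (N + 1))) := fun x hx =>
          mem_product.2 ⟨mem_image_of_mem _ hx, mem_univ _⟩
        simpa using card_le_card this
      have h4 : F.card < Fintype.card E * (N + 1) := by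
        have := card_lt_card (ssubset_univ_iff.2 hne)
        simpa using this
      have h5 : (F.image Prod.fst).card ≤ Fintype.card E := card_le_univ _
      rw [himg, h1, card_univ, Fintype.card_prod, Fintype.card_fin]
      rcases h5.eq_or_lt with h6 | h6
      · have h7 : F.image Prod.fst = univ := eq_univ_of_card _ h6
        rw [h7, coe_univ, Set.image_univ]
        omega
      · generalize finrank ℝ (Submodule.span ℝ (Set.range χ)) = a at *
        generalize finrank ℝ (Submodule.span ℝ
          (χ '' ((F.image Prod.fst : Finset E) : Set E))) = b at *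
        have h8 := Nat.mul_le_mul_left N h2
        nlinarith) p (by rwa [himg])
  refine ⟨fun e => ∑ i, y (e, i), fun e => ∑ i, f (e, i), fun e => ?_, ?_⟩
  · refine (abs_sum_le_sum_abs _ _).trans ?_
    refine (sum_le_sum fun i _ => hf (e, i)).trans ?_
    simp
  · rw [Fintype.sum_prod_type, Fintype.sum_prod_type] at heq
    simp only [Int.cast_sum, mul_sum, sum_smul]
    rw [← heq]
    simp only [Nat.cast_mul, mul_assoc]

end Pool.Agent.P.MP_da739a_co.Dens
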