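import Pool.Agent.P.MP_da739a_co.DensA

/-! Sparse graphs map to the cycle of length `2k+1`. -/

open Finset Module SimpleGraph

namespace Pool.Agent.P.MP_da739a_co.Dens

section
variable {V E : Type} [Fintype V] [DecidableEq V] [Fintype E] [DecidableEq E]

/-- potential differences along the edges of `H`, zero on the other edges -/
def cob (s t : E → V) (H : Finset E) : (V → ℝ) →ₗ[ℝ] (E → ℝ) where
  toFun x := fun e => if e ∈ H then x (s e) - x (t e) else 0
  map_add' x y := by
    funext e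
    simp only [Pi.add_apply]
    split_ifs <;> ring
  map_smul' c x := by
    funext e
    simp only [Pi.smul_apply, smul_eq_mul, RingHom.id_apply]
    split_ifs <;> ring

omit [Fintype V] [DecidableEq V] [Fintype E] in
lemma cob_apply (s t : E → V) (H : Finset E) (x : V → ℝ) (e : E) :
    cob s t H x e = if e ∈ H then x (s e) - x (t e) else 0 := rfl

lemma rank_cob (a b : ℕ) (s t : E → V)
    (h : ∀ S : Finset V, S.Nonempty → a * #{e | s e ∈ S ∧ t e ∈ S} + b ≤ b * #S)
    (H : Finset E) : a * #H ≤ b * finrank ℝ (LinearMap.range (cob s t H)) := by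
  classical
  let R : Setoid V := ⟨fun u v => ∀ x ∈ LinearMap.ker (cob s t H), x u = x v,
    fun _ _ _ => rfl, fun h x hx => (h x hx).symm,
    fun h1 h2 x hx => (h1 x hx).trans (h2 x hx)⟩
  let Q := Quotient R
  let φ : LinearMap.ker (cob s t H) →ₗ[ℝ] (Q → ℝ) :=
    (LinearMap.funLeft ℝ ℝ (fun q : Q => q.out)).domRestrict _
  have hφ : Function.Injective φ := by
    rw [injective_iff_map_eq_zero]
    rintro ⟨x, hx⟩ h0
    refine Subtype.ext (funext fun v => ?_)
    have h1 : x (Quotient.mk R v).out = 0 := congrFun h0 (Quotient.mk R v)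
    have h2 : x (Quotient.mk R v).out = x v := Quotient.mk_out (s := R) v x hx
    exact h2.symm.trans h1
  have h1 : finrank ℝ (LinearMap.ker (cob s t H)) ≤ Fintype.card Q := by
    have := LinearMap.finrank_le_finrank_of_injective hφ
    rwa [Module.finrank_fintype_fun_eq_card] at this
  have h2 := LinearMap.finrank_range_add_finrank_ker (cob s t H)
  rw [Module.finrank_fintype_fun_eq_card] at h2
  have hst : ∀ e ∈ H, Quotient.mk R (s e) = Quotient.mk R (t e) := fun e he =>
    Quotient.sound fun x hx => by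
      have := congrFun (LinearMap.mem_ker.1 hx) e
      rw [cob_apply, if_pos he] at this
      exact sub_eq_zero.1 this
  have h3 : ∀ q : Q, a * #{e ∈ H | Quotient.mk R (s e) = q} + b ≤
      b * #{v | Quotient.mk R v = q} := fun q => by
    refine le_trans ?_ (h {v | Quotient.mk R v = q} ⟨q.out, by simp⟩)
    refine Nat.add_le_add_right (Nat.mul_le_mul_left _ (card_le_card fun e he => ?_)) _
    simp only [mem_filter, mem_univ, true_and] at he ⊢
    exact ⟨he.2, (hst e he.1).symm.trans he.2⟩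
  have h4 := sum_le_sum fun q (_ : q ∈ (univ : Finset Q)) => h3 q
  rw [sum_add_distrib, ← mul_sum, ← mul_sum,
    ← card_eq_sum_card_fiberwise (f := fun e => Quotient.mk R (s e)) (fun _ _ => mem_univ _),
    ← card_eq_sum_card_fiberwise (f := fun v => Quotient.mk R v) (fun _ _ => mem_univ _),
    sum_const, card_univ, card_univ, smul_eq_mul, ← h2, mul_add] at h4
  have h5 := Nat.mul_le_mul_left b h1
  rw [mul_comm (Fintype.card Q)] at h4
  omega

lemma rank_quot (s t : E → V) (F : Finset E) :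
    Fintype.card E + finrank ℝ (Submodule.span ℝ
      ((fun e => (LinearMap.range (cob s t univ)).mkQ (Pi.single e 1)) '' (F : Set E))) ≥
    finrank ℝ (Submodule.span ℝ
      (Set.range fun e => (LinearMap.range (cob s t univ)).mkQ (Pi.single e 1))) + #F +
      finrank ℝ (LinearMap.range (cob s t Fᶜ)) := by
  set W := LinearMap.range (cob s t univ) with hW
  set B := Submodule.span ℝ ((fun e : E => (Pi.single e 1 : E → ℝ)) '' (F : Set E)) with hB
  have hli : LinearIndependent ℝ (fun e : E => (Pi.single e 1 : E → ℝ)) := by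
    have e : (fun e : E => (Pi.single e 1 : E → ℝ)) = Pi.basisFun ℝ E := funext fun e => by simp
    rw [e]
    exact (Pi.basisFun ℝ E).linearIndependent
  have hBc : finrank ℝ B = #F := by
    have h1 : LinearIndependent ℝ (fun e : F => (Pi.single e.1 1 : E → ℝ)) :=
      hli.comp Subtype.val Subtype.val_injective
    have h2 := finrank_span_eq_card h1
    rw [Fintype.card_coe] at h2
    rw [← h2, hB, Set.image_eq_range]
    rfl
  have hBmem : ∀ y : E → ℝ, (∀ e ∉ F, y e = 0) → y ∈ B := by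
    intro y hy
    have : y = ∑ e ∈ F, y e • (Pi.single e 1 : E → ℝ) := by
      funext g
      rw [Finset.sum_apply]
      by_cases hg : g ∈ F
      · rw [sum_eq_single g]
        · simp
        · intro e _ he
          simp [Pi.single_eq_of_ne he.symm]
        · intro h
          exact absurd hg h
      · rw [hy g hg]
        refine (sum_eq_zero fun e he => ?_).symm
        have : g ≠ e := fun h => hg (h ▸ he)
        simp [Pi.single_eq_of_ne this]
    rw [this]
    exact Submodule.sum_mem _ fun e he =>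
      Submodule.smul_mem _ _ (Submodule.subset_span ⟨e, he, rfl⟩)
  have hBz : ∀ y ∈ B, ∀ e ∉ F, y e = 0 := by
    intro y hy e he
    induction hy using Submodule.span_induction with
    | mem y hy =>
      obtain ⟨g, hg, rfl⟩ := hy
      have : e ≠ g := fun h => he (h ▸ hg)
      simp [Pi.single_eq_of_ne this]
    | zero => rfl
    | add y z _ _ h1 h2 => simp [h1, h2]
    | smul c y _ h1 => simp [h1]
  have h1 := finrank_map_mkQ W (B ⊔ W) le_sup_right
  rw [Submodule.map_sup, Submodule.mkQ_map_self, sup_bot_eq, hB, Submodule.map_span,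
    Set.image_image, ← hB] at h1
  have h2 := finrank_map_mkQ W ⊤ le_top
  rw [finrank_top, Module.finrank_fintype_fun_eq_card] at h2
  have h3 : finrank ℝ (Submodule.span ℝ (Set.range fun e => W.mkQ (Pi.single e 1))) ≤
      finrank ℝ ((⊤ : Submodule ℝ (E → ℝ)).map W.mkQ) :=
    Submodule.finrank_mono (Submodule.span_le.2 (by
      rintro _ ⟨e, rfl⟩
      exact Submodule.mem_map_of_mem Submodule.mem_top))
  have h4 := Submodule.finrank_sup_add_finrank_inf_eq B (LinearMap.range (cob s t Fᶜ))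
  have h5 : B ⊓ LinearMap.range (cob s t Fᶜ) = ⊥ := by
    rw [eq_bot_iff]
    rintro y ⟨hy, x, rfl⟩
    refine (Submodule.mem_bot ℝ).2 (funext fun e => ?_)
    by_cases he : e ∈ F
    · rw [cob_apply, if_neg (by simpa using he)]
      rfl
    · exact hBz _ hy e he
  rw [h5, finrank_bot, add_zero, hBc] at h4
  have h6 : finrank ℝ (B ⊔ LinearMap.range (cob s t Fᶜ) : Submodule ℝ (E → ℝ)) ≤
      finrank ℝ (B ⊔ W : Submodule ℝ (E → ℝ)) := by
    refine Submodule.finrank_mono (sup_le le_sup_left ?_)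
    rintro _ ⟨x, rfl⟩
    have : cob s t Fᶜ x = (cob s t Fᶜ x - cob s t univ x) + cob s t univ x := by abel
    rw [this]
    refine Submodule.add_mem_sup (hBmem _ fun e he => ?_) ⟨x, rfl⟩
    rw [Pi.sub_apply, cob_apply, cob_apply, if_pos (by simpa using he), if_pos (mem_univ _),
      sub_self]
  omega

theorem potentials (k N : ℕ) (hN : 0 < N) (s t : E → V)
    (h : ∀ S : Finset V, S.Nonempty →
      2 * k * #{e | s e ∈ S ∧ t e ∈ S} + (2 * k + 1) ≤ (2 * k + 1) * #S) :
    ∃ (a : V → ℤ) (y : E → ℤ), ∀ e,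
      2 * k * N - 1 ≤ a (s e) - a (t e) - 2 * (2 * k + 1) * N * y e ∧
      a (s e) - a (t e) - 2 * (2 * k + 1) * N * y e ≤ (2 * k + 2) * N + 1 := by
  set W := LinearMap.range (cob s t univ) with hW
  obtain ⟨y, f, hf, heq⟩ := coverWeak (fun e => W.mkQ (Pi.single e 1)) (2 * k + 1) N
    (by omega) hN (fun F => by
      have h1 := rank_quot s t F
      have h2 := rank_cob (2 * k) (2 * k + 1) s t h Fᶜ
      have h3 := card_add_card_compl F
      rw [← hW] at h1
      have h4 := Nat.mul_le_mul_left (2 * k + 1) h1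
      rw [← h3] at h4 ⊢
      nlinarith)
    (∑ e, (((2 * k + 1 : ℕ) : ℝ) * N) • W.mkQ (Pi.single e 1))
    (Submodule.sum_mem _ fun e _ => Submodule.smul_mem _ _ (Submodule.subset_span ⟨e, rfl⟩))
  have hmem : (fun e => ((2 * k + 1 : ℕ) : ℝ) * N + 2 * ((2 * k + 1 : ℕ) : ℝ) * N * y e - f e)
      ∈ W := by
    rw [← Submodule.Quotient.mk_eq_zero, ← Submodule.mkQ_apply]
    have : (fun e => ((2 * k + 1 : ℕ) : ℝ) * N + 2 * ((2 * k + 1 : ℕ) : ℝ) * N * y e - f e) =
        ∑ e, (((2 * k + 1 : ℕ) : ℝ) * N + 2 * ((2 * k + 1 : ℕ) : ℝ) * N * y e - f e) •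
          (Pi.single e 1 : E → ℝ) := by
      funext g
      rw [Finset.sum_apply, sum_eq_single g]
      · simp
      · intro e _ he
        simp [Pi.single_eq_of_ne he.symm]
      · simp
    rw [this, map_sum]
    simp only [map_smul]
    simp only [sub_smul, add_smul, sum_sub_distrib, sum_add_distrib]
    rw [heq, sub_self]
  obtain ⟨x, hx⟩ := hmem
  refine ⟨fun v => ⌊x v⌋, y, fun e => ?_⟩
  have h1 := congrFun hx e
  rw [cob_apply, if_pos (mem_univ _)] at h1
  push_cast at h1
  obtain ⟨h2, h3⟩ := abs_le.1 (hf e)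
  constructor
  · have : ⌊x (t e)⌋ + (2 * k * N - 1 + 2 * (2 * k + 1) * N * y e) ≤ ⌊x (s e)⌋ := by
      rw [← Int.floor_add_intCast]
      refine Int.floor_mono ?_
      push_cast
      linarith
    linarith
  · have : ⌊x (s e)⌋ ≤ ⌊x (t e)⌋ + ((2 * k + 2) * N + 1 + 2 * (2 * k + 1) * N * y e) := by
      rw [← Int.floor_add_intCast]
      refine Int.floor_mono ?_
      push_cast
      linarith
    linarith

theorem colouring (k : ℕ) (s t : E → V)
    (h : ∀ S : Finset V, S.Nonempty →
      2 * k * #{e | s e ∈ S ∧ t e ∈ S} + (2 * k + 1) ≤ (2 * k + 1) * #S) :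
    ∃ c : V → ℤ, ∀ e, ((2 * k + 1 : ℕ) : ℤ) ∣ c (s e) - c (t e) - 1 ∨
      ((2 * k + 1 : ℕ) : ℤ) ∣ c (t e) - c (s e) - 1 := by
  set N := Fintype.card V + 1 with hN
  obtain ⟨a, y, hay⟩ := potentials k N (by omega) s t h
  have hM : (0 : ℤ) < 2 * N := by positivity
  obtain ⟨j, hj, hj2⟩ : ∃ j ∈ Finset.Ico (0 : ℤ) (2 * N),
      j ∉ univ.image fun v => (-a v) % (2 * N) := by
    refine exists_mem_notMem_of_card_lt_card (card_image_le.trans_lt ?_)
    rw [Int.card_Ico, card_univ]
    omega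
  have hr : ∀ v, 1 ≤ (a v + j) % (2 * N) := fun v => by
    have h0 := Int.emod_nonneg (a v + j) hM.ne'
    rcases h0.eq_or_lt with h1 | h1
    · refine absurd (mem_image.2 ⟨v, mem_univ _, ?_⟩) hj2
      obtain ⟨q, hq⟩ := Int.dvd_of_emod_eq_zero h1.symm
      have : -a v = j + 2 * N * (-q) := by linarith
      rw [this, Int.add_mul_emod_self_left]
      exact Int.emod_eq_of_lt (mem_Ico.1 hj).1 (mem_Ico.1 hj).2
    · omega
  refine ⟨fun v => 2 * ((a v + j) / (2 * N)), fun e => ?_⟩
  beta_reduce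
  obtain ⟨h1, h2⟩ := hay e
  have a1 := Int.mul_ediv_add_emod (a (s e) + j) (2 * N)
  have a2 := Int.mul_ediv_add_emod (a (t e) + j) (2 * N)
  have b1 := Int.emod_lt_of_pos (a (s e) + j) hM
  have b2 := Int.emod_lt_of_pos (a (t e) + j) hM
  have c1 := hr (s e)
  have c2 := hr (t e)
  generalize (a (s e) + j) / (2 * N) = u at *
  generalize (a (t e) + j) / (2 * N) = v at *
  have d1 : (k : ℤ) - 1 < u - v - (2 * k + 1) * y e :=
    lt_of_mul_lt_mul_left (a := 2 * (N : ℤ)) (by linarith) hM.le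
  have d2 : u - v - (2 * k + 1) * y e < k + 2 :=
    lt_of_mul_lt_mul_left (a := 2 * (N : ℤ)) (by linarith) hM.le
  push_cast
  rcases (by omega : u - v - (2 * k + 1) * y e = k ∨ u - v - (2 * k + 1) * y e = k + 1) with d | d
  · exact Or.inr ⟨-(2 * y e + 1), by linarith⟩
  · exact Or.inl ⟨2 * y e + 1, by linarith⟩

end

lemma hom_of_colouring {V : Type} (G : SimpleGraph V) (n : ℕ) (φ : V → ℤ)
    (h : ∀ u v, G.Adj u v →
      ((n + 2 : ℕ) : ℤ) ∣ φ u - φ v - 1 ∨ ((n + 2 : ℕ) : ℤ) ∣ φ v - φ u - 1) :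
    Nonempty (G →g cycleGraph (n + 2)) := by
  refine ⟨⟨fun v => ((φ v : ZMod (n + 2)) : Fin (n + 2)), fun {u v} huv => ?_⟩⟩
  refine cycleGraph_adj.2 ?_
  have key : ∀ a b : ℤ, ((n + 2 : ℕ) : ℤ) ∣ a - b - 1 →
      (a : ZMod (n + 2)) - (b : ZMod (n + 2)) = 1 := by
    intro a b hab
    have := (ZMod.intCast_zmod_eq_zero_iff_dvd _ (n + 2)).2 hab
    push_cast at this
    exact sub_eq_zero.1 this
  rcases h u v huv with h1 | h1
  · exact Or.inl (key _ _ h1)
  · exact Or.inr (key _ _ h1)

theorem main (k : ℕ) (hk : 1 ≤ k) (V : Type) [Fintype V] (G : SimpleGraph V)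
    (h : ∀ H : G.Subgraph, H.verts.Nonempty →
      2 * k * H.edgeSet.ncard + (2 * k + 1) ≤ (2 * k + 1) * H.verts.ncard) :
    Nonempty (G →g cycleGraph (2 * k + 1)) := by
  classical
  let s : G.edgeSet → V := fun e => e.1.out.1
  let t : G.edgeSet → V := fun e => e.1.out.2
  have hst : ∀ e : G.edgeSet, s(s e, t e) = e.1 := fun e => Quot.out_eq e.1
  obtain ⟨c, hc⟩ := colouring k s t fun S hS => by
    have h1 := h ((⊤ : G.Subgraph).induce S) (by simpa using hS)
    rw [Subgraph.induce_verts, Set.ncard_coe_finset] at h1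
    refine le_trans (Nat.add_le_add_right (Nat.mul_le_mul_left _ ?_) _) h1
    rw [← Set.ncard_coe_finset]
    refine Set.ncard_le_ncard_of_injOn Subtype.val (fun e he => ?_)
      Subtype.val_injective.injOn (Set.toFinite _)
    have he' : s e ∈ S ∧ t e ∈ S := by simpa using he
    rw [← hst, Subgraph.mem_edgeSet, Subgraph.induce_adj]
    refine ⟨he'.1, he'.2, ?_⟩
    rw [Subgraph.top_adj, ← mem_edgeSet, hst]
    exact e.2
  obtain ⟨n, hn⟩ : ∃ n, 2 * k + 1 = n + 2 := ⟨2 * k - 1, by omega⟩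
  rw [hn] at hc ⊢
  refine hom_of_colouring G n c fun u v huv => ?_
  have h1 := hc ⟨s(u, v), huv⟩
  have h2 := hst ⟨s(u, v), huv⟩
  rcases Sym2.eq_iff.1 h2 with ⟨a, b⟩ | ⟨a, b⟩ <;> rw [a, b] at h1
  · exact h1
  · exact h1.symm

end Pool.Agent.P.MP_da739a_co.Dens
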