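import Pool.Agent.P.MP_da739a_co.DensB

/-! The edge count of graphs that are vertex-critical for maps to the cycle of length `2k+1`. -/

open Finset SimpleGraph

namespace Pool.Agent.P.MP_da739a_co.Dens

lemma cyc_count (k : ℕ) (T : Finset (ZMod (2 * k + 1))) (hT : T.Nonempty) :
    2 * k * #{i | i + 1 ∈ T ∧ i ∈ T} + (2 * k + 1) ≤ (2 * k + 1) * #T := by
  by_cases h : ∀ i ∈ T, i + 1 ∈ T
  · obtain ⟨i, hi⟩ := hT
    have h1 : ∀ n : ℕ, i + n ∈ T := fun n => by
      induction n with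
      | zero => simpa using hi
      | succ n ih =>
        rw [Nat.cast_succ, ← add_assoc]
        exact h _ ih
    have h2 : T = univ := eq_univ_of_forall fun j => by
      have := h1 (j - i).val
      rwa [ZMod.natCast_zmod_val, add_sub_cancel] at this
    have h3 := card_le_univ ({i | i + 1 ∈ T ∧ i ∈ T} : Finset (ZMod (2 * k + 1)))
    rw [ZMod.card] at h3
    have h4 : #T = 2 * k + 1 := by rw [h2, card_univ, ZMod.card]
    rw [h4]
    nlinarith
  · push Not at h
    obtain ⟨i, hi, hi'⟩ := h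
    have h1 : #({i | i + 1 ∈ T ∧ i ∈ T} : Finset (ZMod (2 * k + 1))) < #T := by
      refine card_lt_card ⟨fun j hj => (mem_filter.1 hj).2.2, fun hh => ?_⟩
      exact hi' (mem_filter.1 (hh hi)).2.1
    nlinarith

section
variable {V E : Type} [Fintype V] [DecidableEq V] [Fintype E] [DecidableEq E]

lemma colouringZ (k : ℕ) (s t : E → V)
    (h : ∀ S : Finset V, S.Nonempty →
      2 * k * #{e | s e ∈ S ∧ t e ∈ S} + (2 * k + 1) ≤ (2 * k + 1) * #S) :
    ∃ c : V → ZMod (2 * k + 1), ∀ e, c (s e) = c (t e) + 1 ∨ c (t e) = c (s e) + 1 := by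
  obtain ⟨c, hc⟩ := colouring k s t h
  have key : ∀ a b : ℤ, ((2 * k + 1 : ℕ) : ℤ) ∣ a - b - 1 →
      (a : ZMod (2 * k + 1)) = (b : ZMod (2 * k + 1)) + 1 := by
    intro a b hab
    have := (ZMod.intCast_zmod_eq_zero_iff_dvd _ (2 * k + 1)).2 hab
    push_cast at this
    linear_combination this
  exact ⟨fun v => c v, fun e => (hc e).imp (key _ _) (key _ _)⟩

omit [DecidableEq E] in
lemma merge (a b : ℕ) (s t : E → V) (π : V → V)
    (hmax : ∀ π' : V → V, a * #{e | π' (s e) = π' (t e)} + b * #(univ.image π') ≤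
      a * #{e | π (s e) = π (t e)} + b * #(univ.image π))
    (I : Finset V) (hI : I.Nonempty) :
    a * #{e | π (s e) ≠ π (t e) ∧ π (s e) ∈ I ∧ π (t e) ∈ I} + b ≤ b * #I := by
  classical
  rcases (({e | π (s e) ≠ π (t e) ∧ π (s e) ∈ I ∧ π (t e) ∈ I} : Finset E)).eq_empty_or_nonempty
    with h0 | ⟨e0, he0⟩
  · rw [h0, card_empty, mul_zero, zero_add]
    exact Nat.le_mul_of_pos_right _ hI.card_pos
  obtain ⟨p, hp⟩ := hI
  have h1 := hmax fun v => if π v ∈ I then p else π v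
  have h2 : #{e | π (s e) = π (t e)} + #{e | π (s e) ≠ π (t e) ∧ π (s e) ∈ I ∧ π (t e) ∈ I} ≤
      #{e | (if π (s e) ∈ I then p else π (s e)) = if π (t e) ∈ I then p else π (t e)} := by
    rw [← card_union_of_disjoint (by
      rw [disjoint_filter]
      exact fun e _ h h' => h'.1 h)]
    refine card_le_card fun e he => ?_
    simp only [mem_union, mem_filter, mem_univ, true_and] at he ⊢
    rcases he with h | ⟨-, h, h'⟩
    · rw [h]
    · rw [if_pos h, if_pos h']
  have h3 : #(univ.image π \ I) + 1 ≤ #(univ.image fun v => if π v ∈ I then p else π v) := by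
    rw [← card_insert_of_notMem (a := p) (fun h => (mem_sdiff.1 h).2 hp)]
    refine card_le_card fun q hq => ?_
    rcases mem_insert.1 hq with rfl | hq
    · exact mem_image.2 ⟨s e0, mem_univ _, if_pos (mem_filter.1 he0).2.2.1⟩
    · obtain ⟨h4, h5⟩ := mem_sdiff.1 hq
      obtain ⟨v, -, rfl⟩ := mem_image.1 h4
      exact mem_image.2 ⟨v, mem_univ _, if_neg h5⟩
  have h4 := le_card_sdiff I (univ.image π)
  have h5 := Nat.mul_le_mul_left a h2
  have h6 : #(univ.image π) + 1 ≤ #(univ.image fun v => if π v ∈ I then p else π v) + #I := by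
    omega
  have h7 := Nat.mul_le_mul_left b h6
  rw [mul_add] at h5 h7
  rw [mul_add] at h7
  omega

lemma glue (k : ℕ) (s t : E → V) (π : V → V)
    (hmax : ∀ π' : V → V,
      2 * k * #{e | π' (s e) = π' (t e)} + (2 * k + 1) * #(univ.image π') ≤
      2 * k * #{e | π (s e) = π (t e)} + (2 * k + 1) * #(univ.image π))
    (hcol : ∀ p, ∃ c : V → ZMod (2 * k + 1), ∀ e, π (s e) = p → π (t e) = p →
      c (s e) = c (t e) + 1 ∨ c (t e) = c (s e) + 1) :
    ∃ c : V → ZMod (2 * k + 1), ∀ e, c (s e) = c (t e) + 1 ∨ c (t e) = c (s e) + 1 := by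
  choose c hc using hcol
  let f : V → V × ZMod (2 * k + 1) := fun v => (π v, c (π v) v)
  let s' : {e // π (s e) ≠ π (t e)} ⊕ V × ZMod (2 * k + 1) → V × ZMod (2 * k + 1) :=
    Sum.elim (fun e => f (s e.1)) fun x => (x.1, x.2 + 1)
  let t' : {e // π (s e) ≠ π (t e)} ⊕ V × ZMod (2 * k + 1) → V × ZMod (2 * k + 1) :=
    Sum.elim (fun e => f (t e.1)) fun x => x
  obtain ⟨d, hd⟩ := colouringZ k s' t' fun T hT => by
    have h1 := merge _ _ s t π hmax (T.image Prod.fst) (hT.image _)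
    have h2 : #{e | s' e ∈ T ∧ t' e ∈ T} ≤
        #{e | π (s e) ≠ π (t e) ∧ π (s e) ∈ T.image Prod.fst ∧ π (t e) ∈ T.image Prod.fst} +
          #{x ∈ T | (x.1, x.2 + 1) ∈ T} := by
      rw [← card_disjSum]
      refine card_le_card_of_injOn (Sum.map Subtype.val id) (fun e he => ?_)
        (Subtype.val_injective.sumMap Function.injective_id).injOn
      have he' := (mem_filter.1 he).2
      rcases e with e | x
      · exact mem_coe.2 (inl_mem_disjSum.2 (mem_filter.2 ⟨mem_univ _, e.2,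
          mem_image_of_mem Prod.fst he'.1, mem_image_of_mem Prod.fst he'.2⟩))
      · exact mem_coe.2 (inr_mem_disjSum.2 (mem_filter.2 ⟨he'.2, he'.1⟩))
    have h3 : ∀ p ∈ T.image Prod.fst,
        2 * k * #{x ∈ ({x ∈ T | (x.1, x.2 + 1) ∈ T} : Finset _) | x.1 = p} + (2 * k + 1) ≤
          (2 * k + 1) * #{x ∈ T | x.1 = p} := fun p hp => by
      obtain ⟨x, hx, rfl⟩ := mem_image.1 hp
      have h4 := cyc_count k {i | (x.1, i) ∈ T} ⟨x.2, mem_filter.2 ⟨mem_univ _, hx⟩⟩
      refine le_trans (Nat.add_le_add_right (Nat.mul_le_mul_left _ ?_) _)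
        (h4.trans (Nat.mul_le_mul_left _ ?_))
      · refine card_le_card_of_injOn Prod.snd (fun y hy => ?_) fun y hy z hz hyz => ?_
        · simp only [coe_filter, mem_filter, mem_univ, true_and, Set.mem_ofPred_eq] at hy ⊢
          rw [← hy.2]
          exact ⟨hy.1.2, hy.1.1⟩
        · exact Prod.ext ((mem_filter.1 hy).2.trans (mem_filter.1 hz).2.symm) hyz
      · refine card_le_card_of_injOn (fun i => (x.1, i)) (fun i hi => ?_)
          fun i _ j _ hij => (Prod.ext_iff.1 hij).2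
        exact mem_coe.2 (mem_filter.2 ⟨(mem_filter.1 hi).2, rfl⟩)
    have h4 := sum_le_sum h3
    rw [sum_add_distrib, ← mul_sum, ← mul_sum,
      ← card_eq_sum_card_fiberwise (f := Prod.fst)
        (fun x hx => mem_image_of_mem Prod.fst (mem_filter.1 hx).1),
      ← card_eq_sum_card_fiberwise (f := Prod.fst) (fun x hx => mem_image_of_mem Prod.fst hx),
      sum_const, smul_eq_mul, mul_comm (#_)] at h4
    have h5 := Nat.mul_le_mul_left (2 * k) h2
    rw [mul_add] at h5
    omega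
  refine ⟨fun v => d (f v), fun e => ?_⟩
  by_cases he : π (s e) = π (t e)
  · rcases hc (π (t e)) e he rfl with h | h
    · have h1 : f (s e) = s' (.inr (f (t e))) := Prod.ext he (by simpa [f, s', he] using h)
      beta_reduce
      rw [h1]
      exact hd (.inr (f (t e)))
    · have h1 : f (t e) = s' (.inr (f (s e))) := Prod.ext he.symm (by simpa [f, s', he] using h)
      beta_reduce
      rw [h1]
      exact (hd (.inr (f (s e)))).symm
  · exact hd (.inl ⟨e, he⟩)

theorem critical (k : ℕ) (hk : 1 ≤ k) (s t : E → V)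
    (hcol : ∀ v, ∃ c : V → ZMod (2 * k + 1), ∀ e, s e ≠ v → t e ≠ v →
      c (s e) = c (t e) + 1 ∨ c (t e) = c (s e) + 1)
    (h : 2 * k * Fintype.card E + 2 * k < (2 * k + 1) * Fintype.card V) :
    ∃ c : V → ZMod (2 * k + 1), ∀ e, c (s e) = c (t e) + 1 ∨ c (t e) = c (s e) + 1 := by
  rcases subsingleton_or_nontrivial V with hV | hV
  · have h1 : Fintype.card V ≤ 1 := Fintype.card_le_one_iff_subsingleton.2 hV
    refine ⟨0, fun e => ?_⟩
    have h2 : 1 ≤ Fintype.card E := Fintype.card_pos_iff.2 ⟨e⟩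
    nlinarith
  obtain ⟨π, hπ⟩ := Finite.exists_max fun π : V → V =>
    2 * k * #{e | π (s e) = π (t e)} + (2 * k + 1) * #(univ.image π)
  by_cases hp : ∀ p, ∃ v, π v ≠ p
  · refine glue k s t π hπ fun p => ?_
    obtain ⟨v, hv⟩ := hp p
    obtain ⟨c, hc⟩ := hcol v
    exact ⟨c, fun e h1 h2 => hc e (fun h => hv (h ▸ h1)) fun h => hv (h ▸ h2)⟩
  · push Not at hp
    obtain ⟨p, hp⟩ := hp
    refine glue k s t id (fun π' => (hπ π').trans ?_) fun q => ?_
    · have h1 : #(univ.image π) ≤ 1 := card_le_one.2 fun a ha b hb => by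
        obtain ⟨u, -, rfl⟩ := mem_image.1 ha
        obtain ⟨v, -, rfl⟩ := mem_image.1 hb
        rw [hp, hp]
      have h2 := Nat.mul_le_mul_left (2 * k) (card_le_univ ({e | π (s e) = π (t e)} : Finset E))
      have h3 := Nat.mul_le_mul_left (2 * k + 1) h1
      rw [image_id, card_univ]
      omega
    · obtain ⟨v, hv⟩ := exists_ne q
      obtain ⟨c, hc⟩ := hcol v
      exact ⟨c, fun e h1 h2 => hc e (fun h => hv (h ▸ h1)) fun h => hv (h ▸ h2)⟩

end

theorem crit_main (k : ℕ) (hk : 1 ≤ k) (V : Type) [Fintype V] (G : SimpleGraph V)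
    (h0 : IsEmpty (G →g cycleGraph (2 * k + 1)))
    (h : ∀ v, Nonempty (G.induce {v}ᶜ →g cycleGraph (2 * k + 1))) :
    (2 * k + 1) * Fintype.card V ≤ 2 * k * G.edgeSet.ncard + 2 * k := by
  classical
  by_contra hlt
  let s : G.edgeSet → V := fun e => e.1.out.1
  let t : G.edgeSet → V := fun e => e.1.out.2
  have hst : ∀ e : G.edgeSet, s(s e, t e) = e.1 := fun e => Quot.out_eq e.1
  have hadj : ∀ e : G.edgeSet, G.Adj (s e) (t e) := fun e => by
    rw [← mem_edgeSet, hst]
    exact e.2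
  obtain ⟨n, rfl⟩ : ∃ n, k = n + 1 := ⟨k - 1, by omega⟩
  have hcyc : ∀ a b : ZMod (2 * (n + 1) + 1), (cycleGraph (2 * (n + 1) + 1)).Adj a b ↔
      a = b + 1 ∨ b = a + 1 := fun a b => by
    rw [← sub_eq_iff_eq_add', ← sub_eq_iff_eq_add']
    exact cycleGraph_adj (n := 2 * n + 1)
  obtain ⟨c, hc⟩ := critical (n + 1) hk s t (fun v => by
    obtain ⟨φ⟩ := h v
    refine ⟨fun u => if hu : u ≠ v then φ ⟨u, hu⟩ else 0, fun e h1 h2 => ?_⟩
    beta_reduce
    rw [dif_pos h1, dif_pos h2]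
    exact (hcyc _ _).1 (φ.map_adj (v := ⟨s e, h1⟩) (w := ⟨t e, h2⟩) (hadj e))) (by
      rw [← Nat.card_eq_fintype_card, Nat.card_coe_set_eq]
      exact not_le.1 hlt)
  refine h0.false ⟨c, fun {u v} huv => (hcyc _ _).2 ?_⟩
  have h1 := hc ⟨s(u, v), huv⟩
  have h2 := hst ⟨s(u, v), huv⟩
  rcases Sym2.eq_iff.1 h2 with ⟨a, b⟩ | ⟨a, b⟩ <;> rw [a, b] at h1
  · exact h1
  · exact h1.symm

end Pool.Agent.P.MP_da739a_co.Dens
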